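import Pool.Agent.W84.G.All

/-!
Project G (helper84): the final statements, for the hand-ins.
-/

set_option autoImplicit false

namespace Pool.Agent.W84.G

/-- residue classes -/
theorem finalR {a b c : ℤ} (ha : 0 < a) (hD : ¬ IsSquare (b ^ 2 - 4 * a * c)) {q : ℕ} (r : ℕ)
    (hq : 1 ≤ q) : FinalR a b c q r := by
  have hqz : (0 : ℤ) < q := by exact_mod_cast hq
  refine finalR_of r hq (final (by positivity) ?_)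
  have e : (2 * a * q * r + b * q) ^ 2 - 4 * (a * q ^ 2) * (a * r ^ 2 + b * r + c) =
      (q : ℤ) ^ 2 * (b ^ 2 - 4 * a * c) := by ring
  rw [e]
  rintro ⟨x, hx⟩
  have h1 : (q : ℤ) ^ 2 ∣ x ^ 2 := ⟨b ^ 2 - 4 * a * c, by rw [hx]; ring⟩
  have h2 : (q : ℤ) ∣ x := (Int.pow_dvd_pow_iff two_ne_zero).1 h1
  obtain ⟨y, rfl⟩ := h2
  apply hD
  refine ⟨y, ?_⟩
  have h3 : (q : ℤ) ^ 2 * (b ^ 2 - 4 * a * c) = (q : ℤ) ^ 2 * (y * y) := by rw [hx]; ring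
  exact mul_left_cancel₀ (pow_ne_zero 2 hqz.ne') h3

/-- the same for a function `f` -/
theorem finalP {a b c : ℤ} {f : ℕ → ℤ} (hf : ∀ n : ℕ, f n = a * (n : ℤ) ^ 2 + b * n + c)
    (ha : 0 < a) (hD : ¬ IsSquare (b ^ 2 - 4 * a * c)) {q : ℕ} (r : ℕ) (hq : 1 ≤ q) :
    ∃ S : ℕ, ∀ e₁ e₂ : ℤ, (e₁ = 1 ∨ e₁ = -1) → (e₂ = 1 ∨ e₂ = -1) →
    (∀ ε : ℝ, 0 < ε → ∃ N₀ : ℕ, ∀ N : ℕ, N₀ ≤ N → (N : ℝ) / Real.log N ^ (2 * Real.log 2 + ε) ≤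
      (Set.ncard {n : ℕ | 1 ≤ n ∧ n ≤ N ∧ n ≡ r [MOD q] ∧
        ∃ d d' : ℕ, (d : ℤ) * d' = f n ∧
        d ≤ S * n ∧ d' ≤ S * n ∧ (∀ k : ℕ, k ^ 2 ∣ d * d' → k ≤ S) ∧
        (-1 : ℤ) ^ ArithmeticFunction.cardFactors d = e₁ ∧
        (-1 : ℤ) ^ ArithmeticFunction.cardFactors d' = e₂} : ℝ)) ∧
    ∃ κ : ℝ, 0 < κ ∧ ∃ N₀ : ℕ, ∀ N : ℕ, N₀ ≤ N → κ * N ≤
      (Set.ncard {p : ℕ × ℕ | 1 ≤ p.1 ∧ p.1 ≤ N ∧ 1 ≤ p.2 ∧ p.2 ≤ N ∧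
        (∃ n : ℕ, 1 ≤ n ∧ n ≡ r [MOD q] ∧ (p.1 : ℤ) * p.2 = f n) ∧
        (∀ k : ℕ, k ^ 2 ∣ p.1 * p.2 → k ≤ S) ∧
        (-1 : ℤ) ^ ArithmeticFunction.cardFactors p.1 = e₁ ∧
        (-1 : ℤ) ^ ArithmeticFunction.cardFactors p.2 = e₂} : ℝ) := by
  have h : f = fun n : ℕ => a * (n : ℤ) ^ 2 + b * n + c := funext hf
  subst h
  exact finalR ha hD r hq

open ArithmeticFunction in
/-- the signs of `λ(f(n))` on a residue class, `f` any integer quadratic polynomial of nonsquare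
discriminant -/
theorem signs {a b c : ℤ} (hD : ¬ IsSquare (b ^ 2 - 4 * a * c)) {q : ℕ} (r : ℕ) (hq : 1 ≤ q)
    {e : ℤ} (he : e = 1 ∨ e = -1) : ∀ ε : ℝ, 0 < ε → ∃ N₀ : ℕ, ∀ N : ℕ, N₀ ≤ N →
    (N : ℝ) / Real.log N ^ (2 * Real.log 2 + ε) ≤
      (Set.ncard {n : ℕ | 1 ≤ n ∧ n ≤ N ∧ n ≡ r [MOD q] ∧ a * (n : ℤ) ^ 2 + b * n + c ≠ 0 ∧
        (-1 : ℤ) ^ cardFactors (a * (n : ℤ) ^ 2 + b * n + c).natAbs = e} : ℝ) := by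
  have main : ∀ a b c : ℤ, 0 < a → ¬ IsSquare (b ^ 2 - 4 * a * c) → ∀ ε : ℝ, 0 < ε → ∃ N₀ : ℕ,
      ∀ N : ℕ, N₀ ≤ N → (N : ℝ) / Real.log N ^ (2 * Real.log 2 + ε) ≤
      (Set.ncard {n : ℕ | 1 ≤ n ∧ n ≤ N ∧ n ≡ r [MOD q] ∧ a * (n : ℤ) ^ 2 + b * n + c ≠ 0 ∧
        (-1 : ℤ) ^ cardFactors (a * (n : ℤ) ^ 2 + b * n + c).natAbs = e} : ℝ) := by
    intro a b c ha hD ε hε
    obtain ⟨S, h⟩ := finalR ha hD r hq
    obtain ⟨N₀, h1⟩ := (h 1 e (Or.inl rfl) he).1 ε hε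
    refine ⟨N₀, fun N hN => (h1 N hN).trans (Nat.cast_le.2 (Set.ncard_le_ncard ?_ ?_))⟩
    · rintro n ⟨h2, h3, h4, d, d', h5, h6, h7, h8, h9, h10⟩
      have hne : d * d' ≠ 0 := by
        intro h0
        have := h8 (S + 1) (by rw [h0]; exact dvd_zero _)
        omega
      refine ⟨h2, h3, h4, ?_, ?_⟩
      · rw [← h5]
        exact_mod_cast hne
      · have e1 : (a * (n : ℤ) ^ 2 + b * n + c).natAbs = d * d' := by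
          rw [← h5]
          have : ((d : ℤ) * d') = ((d * d' : ℕ) : ℤ) := by push_cast; ring
          rw [this, Int.natAbs_natCast]
        rw [e1, cardFactors_mul (left_ne_zero_of_mul hne) (right_ne_zero_of_mul hne), pow_add,
          h9, h10, one_mul]
    · exact (Set.finite_Icc 1 N).subset fun n hn => ⟨hn.1, hn.2.1⟩
  rcases lt_trichotomy a 0 with h | h | h
  · intro ε hε
    obtain ⟨N₀, h1⟩ := main (-a) (-b) (-c) (by linarith) (by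
      have e1 : (-b) ^ 2 - 4 * (-a) * (-c) = b ^ 2 - 4 * a * c := by ring
      rwa [e1]) ε hε
    refine ⟨N₀, fun N hN => ?_⟩
    have h2 := h1 N hN
    have e2 : ∀ n : ℕ, -a * (n : ℤ) ^ 2 + -b * n + -c = -(a * (n : ℤ) ^ 2 + b * n + c) := by
      intro n; ring
    simp only [e2, Int.natAbs_neg, neg_ne_zero] at h2
    exact h2
  · exfalso
    apply hD
    exact ⟨b, by rw [h]; ring⟩
  · exact main a b c h hD

end Pool.Agent.W84.G
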