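import Pool.Agent.W84.FP.Defs
import Pool.Agent.W78.GR.Defs
import Pool.Agent.W78.GT.Defs
import Pool.Agent.W80.GC.Defs

/-!
Project G (helper84): the four sign patterns of the Liouville function at the pairs `(d, d')` with
`d d' = a n^2 + b n + c`, for EVERY integer quadratic polynomial of nonsquare discriminant (both
signs of the discriminant, any leading coefficient). Definitions and statements.
-/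

set_option autoImplicit false

namespace Pool.Agent.W84.G

open Finset Filter
open Pool.Agent.H376R2.MR
open Pool.Agent.W78.GA Pool.Agent.W78.GC
open Pool.Agent.W78.GT (Qp Tr NT tri)
open Pool.Agent.W84.FP (Tw GF)
open Pool.Agent.W80.GC (cl)

variable {t c : ℤ}

/-- the signed norm -/
def Nz (z : Qd t c) : ℤ := z.re ^ 2 + t * z.re * z.im + c * z.im ^ 2

/-- the trace form: `v̄ u + v ū` -/
def Bf (v u : Qd t c) : ℤ := 2 * ip v u + t * dt v u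

/-- the colour: `z ≡ x mod q` with an integer `x` whose inverse modulo `q` is the class of a natural
number `m` with `(D/m) = 1`, `D = t^2 - 4c` -/
def cg (q : ℕ) (z : Qd t c) : Prop :=
  (q : ℤ) ∣ z.im ∧ ∃ m : ℕ, jacobiSym (t ^ 2 - 4 * c) m = 1 ∧ (q : ℤ) ∣ (m : ℤ) * z.re - 1

/-- the norm of `z` has a prime factor `p`, `P₀ < p ≤ P`, in every class `r` modulo `A` with
`(D/r) = 1` (same as `W80.GC.Rich`) -/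
def Ri (A P₀ P : ℕ) (z : Qd t c) : Prop := ∀ r : ℕ, Nat.Coprime r A →
  jacobiSym (t ^ 2 - 4 * c) r = 1 →
  ∃ p : ℕ, p.Prime ∧ P₀ < p ∧ p ≤ P ∧ p ∣ nm z ∧ (A : ℤ) ∣ (p : ℤ) - r

/-! ### Part 1: paths -/

/-- PATHG: two elements `x`, `y` of the colour, `0 < dt x y ≤ T`, and a prime `p ∣ N y` in a certain
residue class modulo `q T!` -/
def S_PATHG (t c : ℤ) : Prop := ∀ (q T : ℕ) (x y : Qd t c), 1 ≤ q →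
  4 * (t ^ 2 - 4 * c) ∣ (q : ℤ) → prim x → prim y → cg q x → cg q y → 0 < dt x y →
  dt x y ≤ T → ∃ r : ℕ, Nat.Coprime r (q * T.factorial) ∧ jacobiSym (t ^ 2 - 4 * c) r = 1 ∧
  ∀ p : ℕ, p.Prime → ((q * T.factorial : ℕ) : ℤ) ∣ (p : ℤ) - r → p ∣ nm y →
    ∃ (v : Qd t c) (n₂ : ℤ), dt v x = 1 ∧ dt v y = p ∧
      ((dt x y : ℤ) : Qd t c) * v = (p : Qd t c) * x - y ∧
      (q : ℤ) ∣ ip v x ∧ ip v y = p * n₂ ∧ (q : ℤ) ∣ n₂ ∧ p ∣ nm v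

/-! ### Part 2: good pairs -/

/-- a good pair -/
structure Gp (q T : ℕ) (B X : ℝ) (e : Qd t c × Qd t c) : Prop where
  pr1 : prim e.1
  pr2 : prim e.2
  cg1 : cg q e.1
  cg2 : cg q e.2
  nz1 : Nz e.1 = nm e.1
  nz2 : Nz e.2 = nm e.2
  n1 : B ≤ nm e.1
  n1' : (nm e.1 : ℝ) ≤ X
  n2 : B ≤ nm e.2
  n2' : (nm e.2 : ℝ) ≤ X
  dt0 : dt e.1 e.2 ≠ 0
  dt1 : |dt e.1 e.2| ≤ T
  ne : gl e.1 ≠ gl e.2
  bf : 0 < Bf e.1 e.2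

/-- PAIRS: many good pairs with members in the region `K'` -/
def S_PAIRS (q : ℕ) (K' : Qd t c → Prop) : Prop := ∃ (T : ℕ) (c₁ : ℝ), 1 ≤ T ∧ 0 < c₁ ∧
  ∀ A P₀ : ℕ, 0 < A → 4 * (t ^ 2 - 4 * c) ∣ (A : ℤ) → ∃ (P : ℕ) (ε X₀ : ℝ), 0 < ε ∧
  ∀ X : ℝ, X₀ ≤ X → ∃ S : Finset (Qd t c × Qd t c), ε * X ≤ (S.card : ℝ) ∧
    ∀ e ∈ S, Gp q T (c₁ * X) X e ∧ K' e.1 ∧ K' e.2 ∧ Ri A P₀ P e.1 ∧ Ri A P₀ P e.2

/-- FIBK: few pairs of determinant one with given `ip` and first norm, first element in the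
region `K` -/
def S_FIBK (K : Qd t c → Prop) : Prop := ∃ W : ℕ, ∀ (n : ℤ) (d : ℕ)
  (S : Finset (Qd t c × Qd t c)),
  (∀ e ∈ S, K e.1 ∧ dt e.1 e.2 = 1 ∧ ip e.1 e.2 = n ∧ nm e.1 = d) → S.card ≤ W

/-- CLK: the path construction maps pairs of the region `K'` to the region `K` -/
def S_CLK (K' K : Qd t c → Prop) : Prop := (∀ z, K' z → K' (star z)) ∧
  ∀ (T : ℕ) (c₁ : ℝ), 0 < c₁ → ∃ P₁ : ℕ, ∀ (X : ℝ) (x y v : Qd t c) (p : ℕ), 0 < X → K' x →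
    K' y → Nz x = nm x → Nz y = nm y → c₁ * X ≤ nm x → (nm x : ℝ) ≤ X → c₁ * X ≤ nm y →
    (nm y : ℝ) ≤ X → 0 < Bf x y → 0 < dt x y → dt x y ≤ T → P₁ ≤ p →
    ((dt x y : ℤ) : Qd t c) * v = (p : Qd t c) * x - y → K v

/-! ### Part 3: triples -/

/-- the triples `(d, n, d')` with `q ∣ n`, `d'` prime to `q`, and given signs -/
def R4 (q : ℕ) (e₁ e₂ : ℤ) (e : Tr) : Prop :=
  (q : ℤ) ∣ e.2.1 ∧ Nat.Coprime e.2.2 q ∧ lam e.1 = e₁ ∧ lam e.2.2 = e₂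

/-- a positive proportion of the triples has the property `R` -/
def PosT (t c : ℤ) (R : Tr → Prop) : Prop := ∃ κ : ℝ, 0 < κ ∧ ∃ X₀ : ℝ, ∀ X : ℝ, X₀ ≤ X →
  (open scoped Classical in κ * X ≤ (((tri t c X X).filter R).card : ℝ))

/-- POST -/
def S_POST (t c : ℤ) (q : ℕ) : Prop := ∀ e₁ e₂ : ℤ, (e₁ = 1 ∨ e₁ = -1) → (e₂ = 1 ∨ e₂ = -1) →
  PosT t c (R4 q e₁ e₂)

/-- SQBT: few triples with a large square divisor -/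
def S_SQBT (t c : ℤ) : Prop := ∀ δ : ℝ, 0 < δ → ∃ (S : ℕ) (X₀ : ℝ), ∀ X : ℝ, X₀ ≤ X →
  (open scoped Classical in
    (((tri t c X X).filter (fun e => ∃ k : ℕ, S < k ∧ k ^ 2 ∣ NT e)).card : ℝ)) ≤ δ * X

/-- CONT: from triples to integers -/
def S_CONT (t c : ℤ) : Prop := ∀ (R : Tr → Prop) (B : ℕ),
  (∀ e : Tr, R e → (NT e).divisors.card ≤ B * 2 ^ (NT e).primeFactors.card) → PosT t c R →
  ∃ L : ℕ,
  (∀ ε : ℝ, 0 < ε → ∃ N₀ : ℕ, ∀ N : ℕ, N₀ ≤ N → (N : ℝ) / Real.log N ^ (2 * Real.log 2 + ε) ≤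
    (Set.ncard {n : ℕ | 1 ≤ n ∧ n ≤ N ∧ ∃ d d' : ℕ, (d : ℤ) * d' = Qp t c n ∧ d ≤ L * n ∧
      d' ≤ L * n ∧ R (d, (n : ℤ), d')} : ℝ)) ∧
  ∃ κ : ℝ, 0 < κ ∧ ∃ N₀ : ℕ, ∀ N : ℕ, N₀ ≤ N → κ * N ≤
    (Set.ncard {p : ℕ × ℕ | 1 ≤ p.1 ∧ p.1 ≤ N ∧ 1 ≤ p.2 ∧ p.2 ≤ N ∧
      ∃ n : ℕ, 1 ≤ n ∧ (p.1 : ℤ) * p.2 = Qp t c n ∧ R (p.1, (n : ℤ), p.2)} : ℝ)

/-- the final statement for `a n^2 + b n + c` -/
def FinalG (a b c : ℤ) : Prop := ∃ S : ℕ, ∀ e₁ e₂ : ℤ, (e₁ = 1 ∨ e₁ = -1) →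
  (e₂ = 1 ∨ e₂ = -1) →
  (∀ ε : ℝ, 0 < ε → ∃ N₀ : ℕ, ∀ N : ℕ, N₀ ≤ N → (N : ℝ) / Real.log N ^ (2 * Real.log 2 + ε) ≤
    (Set.ncard {n : ℕ | 1 ≤ n ∧ n ≤ N ∧ ∃ d d' : ℕ, (d : ℤ) * d' = a * (n : ℤ) ^ 2 + b * n + c ∧
      d ≤ S * n ∧ d' ≤ S * n ∧ (∀ k : ℕ, k ^ 2 ∣ d * d' → k ≤ S) ∧
      (-1 : ℤ) ^ ArithmeticFunction.cardFactors d = e₁ ∧
      (-1 : ℤ) ^ ArithmeticFunction.cardFactors d' = e₂} : ℝ)) ∧
  ∃ κ : ℝ, 0 < κ ∧ ∃ N₀ : ℕ, ∀ N : ℕ, N₀ ≤ N → κ * N ≤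
    (Set.ncard {p : ℕ × ℕ | 1 ≤ p.1 ∧ p.1 ≤ N ∧ 1 ≤ p.2 ∧ p.2 ≤ N ∧
      (∃ n : ℕ, 1 ≤ n ∧ (p.1 : ℤ) * p.2 = a * (n : ℤ) ^ 2 + b * n + c) ∧
      (∀ k : ℕ, k ^ 2 ∣ p.1 * p.2 → k ≤ S) ∧
      (-1 : ℤ) ^ ArithmeticFunction.cardFactors p.1 = e₁ ∧
      (-1 : ℤ) ^ ArithmeticFunction.cardFactors p.2 = e₂} : ℝ)

/-- FINALG: from the order of discriminant `b^2 - 4 a c` to `a n^2 + b n + c` -/
def S_FINALG : Prop := ∀ a b c : ℤ, 0 < a → ∀ q : ℕ, 1 ≤ q → a ∣ (q : ℤ) →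
  S_POST b (a * c) q → S_SQBT b (a * c) → S_CONT b (a * c) → FinalG a b c

/-! ### Part 4: negative discriminant -/

/-- ELEN: a system of elements `ϖ m` in the class `1` modulo `Q` -/
def S_ELEN (t c : ℤ) : Prop := ∀ Q : ℕ, 1 ≤ Q →
  ∃ (Ap Bp M : ℕ → Prop) (E : ℕ) (ρ : ℕ → ℤ) (ϖ : ℕ → Qd t c), Ele t c Ap Bp M E ρ ϖ ∧
    (∀ m, M m → cl Q (ϖ m)) ∧ (∀ p, Ap p ∨ Bp p → (Q : ℤ) ∣ (p : ℤ) - 1)

open scoped Classical in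
/-- the Liouville function of the norm, restricted to the colour `cg q` -/
noncomputable def Fg (q : ℕ) (z : Qd t c) : ℤ := if cg q z then gl z else 0

/-- TWN: the function `Fg q` is invariant -/
def S_TWN (t c : ℤ) : Prop := ∀ q : ℕ, 1 ≤ q →
  ∀ (Ap Bp M : ℕ → Prop) (E : ℕ) (ρ : ℕ → ℤ) (ϖ : ℕ → Qd t c), Ele t c Ap Bp M E ρ ϖ →
    (∀ m, M m → cl q (ϖ m)) → (∀ p, Ap p ∨ Bp p → (q : ℤ) ∣ (p : ℤ) - 1) →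
    Tw M ϖ (Fg q) ∧ ∀ (Y : ℝ) (k : ℤ), GF (Fg q : Qd t c → ℤ) Y k = Gc (cg q : Qd t c → Prop) Y k

/-- A0N: many primitive elements of the colour -/
def S_A0N (t c : ℤ) : Prop := ∀ q : ℕ, 1 ≤ q → S_A0C (cg q : Qd t c → Prop)

/-- UN: an element of the colour with an odd number of prime factors, all of them split -/
def S_UN (t c : ℤ) : Prop := ∀ q : ℕ, 1 ≤ q → 4 * (t ^ 2 - 4 * c) ∣ (q : ℤ) →
  ∃ u : Qd t c, cg q u ∧ u ≠ 0 ∧ lam (nm u) = -1 ∧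
    ∀ p : ℕ, p.Prime → p ∣ nm u → jacobiSym (t ^ 2 - 4 * c) p = 1

/-- GAPSN: gaps between directions -/
def S_GAPSN (t c : ℤ) : Prop := ∃ C : ℝ, 0 < C ∧ ∀ (col : Qd t c → Prop) (X : ℝ) (h : ℕ)
  (B : Finset (Qd t c)), 1 ≤ h → C * h ≤ X →
  (∀ w w' : Qd t c, w ∈ cball col X → w' ∈ cball col X → gl w ≠ gl w' →
    0 < dt w w' → dt w w' ≤ h → 0 < Bf w w' → w ∈ B ∨ w' ∈ B) →
  ∃ B₁ : Finset (Qd t c), (0 : Qd t c) ∉ B₁ ∧ (B₁.card : ℝ) ≤ C * (X / h + 1) ∧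
    ∀ B' : Finset (Qd t c), B ⊆ B' → B₁ ⊆ B' → Hits col X B'

open scoped Classical in
/-- RICHN: almost all elements are rich -/
def S_RICHN (t c : ℤ) : Prop := ∀ A P₀ : ℕ, 0 < A → 4 * (t ^ 2 - 4 * c) ∣ (A : ℤ) →
  ∀ δ : ℝ, 0 < δ → ∃ (P : ℕ) (X₀ : ℝ), ∀ X : ℝ, X₀ ≤ X →
    (((pball t c X).filter (fun z => ¬ Ri A P₀ P z)).card : ℝ) ≤ δ * X

/-! ### Part 5: positive discriminant -/

/-- the region of the members of the pairs, positive discriminant -/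
def Kp' (η : (Qd t c)ˣ) (z : Qd t c) : Prop :=
  Pool.Agent.W78.GR.tp z ∧ |Pool.Agent.W78.GR.ang η z| ≤ 2 * Real.pi + 1

/-- the region of the first elements of the pairs of determinant one -/
def Kp (η : (Qd t c)ˣ) (z : Qd t c) : Prop :=
  Pool.Agent.W78.GR.tp z ∧ |Pool.Agent.W78.GR.ang η z| ≤ 4 * Real.pi

end Pool.Agent.W84.G
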