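import Pool.Agent.W84.G.Defs
import Pool.Agent.W84.FP.All
import Pool.Agent.W29.GA.Mult

/-!
Project G (helper84): negative discriminant. The Matomaki-Radziwill theorem for the colour `cg q`,
and the hitting theorem.
-/

set_option autoImplicit false

namespace Pool.Agent.W84.G

open Finset Filter
open Pool.Agent.H376R2.MR
open Pool.Agent.W78.GA Pool.Agent.W78.GC
open Pool.Agent.W84.FP (Tw GF mrf_of Col2 S_SC2)

variable {t c : ℤ}

/-- the Matomaki-Radziwill theorem for the colour `cg q` -/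
theorem mrg (hD : t ^ 2 < 4 * c) (helen : S_ELEN t c) (htwn : S_TWN t c) {q : ℕ} (hq : 1 ≤ q) :
    S_MRC (cg q : Qd t c → Prop) := by
  have hlat : S_LAT t c := Pool.Agent.W45.GA.lat hD
  have hred : S_RED t c := Pool.Agent.W322.GA.red hD
  have hlati : S_LATI t c := Pool.Agent.W322.GA.lati_of hD hlat hred
  have hls : S_LS t c := Pool.Agent.W327.GA.ls hD
  have hang : S_ANG t c := Pool.Agent.W397.GA.ang_of (Pool.Agent.W327.GA.ang1 hD)
    (Pool.Agent.W397.GA.ang2 hD)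
  have hangi : S_ANGI t c := Pool.Agent.W322.GA.angi_of hD hang hred
  have hmach : S_MACH := Pool.Agent.W586.GA.mach_of Pool.Agent.W240.GA.leva
    Pool.Agent.W240.GA.levb Pool.Agent.W397.GA.s_cnt Pool.Agent.W586.GA.upart
  obtain ⟨Ap, Bp, M, E, ρ, ϖ, hE, hc, hp⟩ := helen q hq
  obtain ⟨hT, hG⟩ := htwn q hq Ap Bp M E ρ ϖ hE hc hp
  intro η hη
  obtain ⟨h, hh, Y₀, hmr⟩ := mrf_of hD hmach
    (Pool.Agent.W440.FP.decf hD hlati (Pool.Agent.W999.GA.tk_of hD hlat hlati))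
    (Pool.Agent.W108.FP.mom0f hD hls hlat) (Pool.Agent.W108.FP.mompf hD hls)
    (Pool.Agent.W193.FP.momf hD hls hlat hlati)
    (Pool.Agent.W191.GA.sparse_of hD hang hlat) hls
    (Pool.Agent.W125.FP.cellf hD
      (Pool.Agent.W194.GA.sele_of hD hangi hlat (Pool.Agent.W109.GA.selb hD)))
    hlat hE hT η hη
  refine ⟨h, hh, Y₀, fun Y hY => ?_⟩
  have := hmr Y hY
  simp only [hG] at this
  exact this

lemma jac_mul {D : ℤ} {m n : ℕ} (hm : jacobiSym D m = 1) (hn : jacobiSym D n = 1) :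
    jacobiSym D (m * n) = 1 := by
  rcases Nat.eq_zero_or_pos m with h | h
  · rw [h, zero_mul]; exact jacobiSym.zero_right D
  rcases Nat.eq_zero_or_pos n with h' | h'
  · rw [h', mul_zero]; exact jacobiSym.zero_right D
  rw [jacobiSym.mul_right' D h.ne' h'.ne', hm, hn, one_mul]

lemma jac_of_primes {D : ℤ} {n : ℕ} (hn : n ≠ 0)
    (h : ∀ p : ℕ, p.Prime → p ∣ n → jacobiSym D p = 1) {m : ℕ} (hm : m ∣ n) :
    jacobiSym D m = 1 := by
  have hm0 : m ≠ 0 := fun h0 => hn (by rw [h0] at hm; exact zero_dvd_iff.1 hm)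
  have key : ∀ k : ℕ, k ≠ 0 → (∀ p : ℕ, p.Prime → p ∣ k → jacobiSym D p = 1) →
      jacobiSym D k = 1 := by
    intro k
    induction k using Nat.recOnMul with
    | zero => intro h0; exact absurd rfl h0
    | one => intro _ _; exact jacobiSym.one_right D
    | prime p hp => intro _ h; exact h p hp dvd_rfl
    | mul a b iha ihb =>
      intro hab h
      exact jac_mul (iha (left_ne_zero_of_mul hab)
        (fun p hp hpa => h p hp (Dvd.dvd.mul_right hpa b)))
        (ihb (right_ne_zero_of_mul hab) (fun p hp hpb => h p hp (Dvd.dvd.mul_left hpb a)))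
  exact key m hm0 (fun p hp hpm => h p hp (hpm.trans hm))

lemma cg_mul {q : ℕ} {u z : Qd t c} (hu : cg q u) (hz : cg q z) : cg q (u * z) := by
  obtain ⟨⟨a, ha⟩, m, hm, ⟨b, hb⟩⟩ := hu
  obtain ⟨⟨a', ha'⟩, m', hm', ⟨b', hb'⟩⟩ := hz
  have ere : (u * z).re = u.re * z.re - c * u.im * z.im := by
    rw [QuadraticAlgebra.re_mul]; ring
  have eim : (u * z).im = u.re * z.im + u.im * z.re + t * u.im * z.im := by
    rw [QuadraticAlgebra.im_mul]
  refine ⟨?_, m * m', jac_mul hm hm', ?_⟩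
  · rw [eim, ha, ha']
    exact ⟨u.re * a' + a * z.re + t * a * (q * a'), by ring⟩
  · rw [ere]
    push_cast
    refine ⟨b * b' * q + b + b' - m * m' * c * a * z.im, ?_⟩
    have e1 : (m : ℤ) * u.re = q * b + 1 := by linarith
    have e2 : (m' : ℤ) * z.re = q * b' + 1 := by linarith
    have e3 : (m : ℤ) * m' * (u.re * z.re - c * u.im * z.im) - 1 =
        (m * u.re) * (m' * z.re) - m * m' * c * u.im * z.im - 1 := by ring
    rw [e3, e1, e2, ha]
    ring

lemma cg_div {q : ℕ} {m : ℕ} (hm : jacobiSym (t ^ 2 - 4 * c) m = 1) {z : Qd t c}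
    (hz : cg q ((m : Qd t c) * z)) : cg q z := by
  obtain ⟨h1, m', hm', ⟨b, hb⟩⟩ := hz
  have ere : ((m : Qd t c) * z).re = (m : ℤ) * z.re := by
    rw [QuadraticAlgebra.re_mul]
    simp
  have eim : ((m : Qd t c) * z).im = (m : ℤ) * z.im := by
    rw [QuadraticAlgebra.im_mul]
    simp
  rw [ere] at hb
  rw [eim] at h1
  have hmq : IsCoprime (m : ℤ) (q : ℤ) := ⟨m' * z.re, -b, by linarith⟩
  refine ⟨hmq.symm.dvd_of_dvd_mul_left h1, m' * m, jac_mul hm' hm, ?_⟩
  push_cast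
  exact ⟨b, by rw [← hb]; ring⟩

/-- the hitting theorem for the colour `cg q` -/
theorem sccg (hD : t ^ 2 < 4 * c) (helen : S_ELEN t c) (htwn : S_TWN t c) (ha0n : S_A0N t c)
    (hun : S_UN t c) {q : ℕ} (hq : 1 ≤ q) (hqD : 4 * (t ^ 2 - 4 * c) ∣ (q : ℤ)) :
    S_SCC (cg q : Qd t c → Prop) := by
  obtain ⟨u, hu, hu0, hlam, hp⟩ := hun q hq hqD
  refine Pool.Agent.W538.FP.sc2 hD (Pool.Agent.W803.GA.sect hD) (Pool.Agent.W45.GA.lat hD) (cg q) u
    ⟨fun m z hm hz => ?_, fun z hz => cg_mul hu hz, hu0, hlam⟩ (mrg hD helen htwn hq)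
    (ha0n q hq)
  exact cg_div (jac_of_primes (nm_pos hD hu0).ne' hp hm) hz

/-- `S_FIBK` for negative discriminant -/
theorem fibn (hD : t ^ 2 < 4 * c) : S_FIBK (fun _ : Qd t c => True) :=
  ⟨6, fun n d S h => Pool.Agent.W29.GA.mult hD n d S (fun e he => (h e he).2)⟩

/-- `S_CLK` for negative discriminant -/
theorem cln : S_CLK (fun _ : Qd t c => True) (fun _ : Qd t c => True) :=
  ⟨fun _ _ => trivial, fun _ _ _ => ⟨0, fun _ _ _ _ _ _ _ _ _ _ _ _ _ _ _ _ _ _ _ => trivial⟩⟩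

end Pool.Agent.W84.G
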