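import Pool.Agent.W84.G.Defs
import Pool.Agent.W78.GT.Basic
import Pool.Agent.W78.GA.Basic

/-!
Project G (helper84): from good pairs and the path lemma to a positive proportion of triples with
given signs.
-/

set_option autoImplicit false

namespace Pool.Agent.W84.G

open Finset Filter
open Pool.Agent.H376R2.MR
open Pool.Agent.W78.GA Pool.Agent.W78.GC
open Pool.Agent.W78.GT (Qp Tr NT tri mem_tri)

variable {t c : ℤ}

lemma nm_eq_abs (z : Qd t c) : (nm z : ℤ) = |Nz z| := Int.natCast_natAbs _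

lemma Nz_mul_Nz (v u : Qd t c) :
    Nz v * Nz u = ip v u ^ 2 + t * ip v u * dt v u + c * dt v u ^ 2 := by
  unfold Nz ip dt; ring

lemma Bf_comm (v u : Qd t c) : Bf v u = Bf u v := by unfold Bf ip dt; ring

lemma Bf_sq (v u : Qd t c) :
    Bf v u ^ 2 = 4 * (Nz v * Nz u) + (t ^ 2 - 4 * c) * dt v u ^ 2 := by
  unfold Bf Nz ip dt; ring

lemma Nz_star (z : Qd t c) : Nz (star z) = Nz z := by
  unfold Nz
  simp only [QuadraticAlgebra.re_star, QuadraticAlgebra.im_star]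
  ring

lemma Bf_star (v u : Qd t c) : Bf (star v) (star u) = Bf v u := by
  unfold Bf ip dt
  simp only [QuadraticAlgebra.re_star, QuadraticAlgebra.im_star]
  ring

lemma dt_star (v u : Qd t c) : dt (star v) (star u) = -dt v u := by
  unfold dt
  simp only [QuadraticAlgebra.re_star, QuadraticAlgebra.im_star]
  ring

lemma dt_comm (v u : Qd t c) : dt v u = -dt u v := by
  unfold dt; ring

/-! ### The relation `δ v = p x - y` -/

lemma rel_re {δ : ℤ} {p : ℕ} {x y v : Qd t c}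
    (h : ((δ : ℤ) : Qd t c) * v = (p : Qd t c) * x - y) : δ * v.re = p * x.re - y.re := by
  have := congrArg QuadraticAlgebra.re h
  simpa using this

lemma rel_im {δ : ℤ} {p : ℕ} {x y v : Qd t c}
    (h : ((δ : ℤ) : Qd t c) * v = (p : Qd t c) * x - y) : δ * v.im = p * x.im - y.im := by
  have := congrArg QuadraticAlgebra.im h
  simpa using this

section rel

variable {δ : ℤ} {p : ℕ} {x y v : Qd t c}

lemma rel_Bx (h : ((δ : ℤ) : Qd t c) * v = (p : Qd t c) * x - y) :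
    δ * Bf v x = 2 * p * Nz x - Bf x y := by
  have h1 := rel_re h
  have h2 := rel_im h
  unfold Bf Nz ip dt
  linear_combination (2 * x.re + t * x.im) * h1 + (t * x.re + 2 * c * x.im) * h2

lemma rel_By (h : ((δ : ℤ) : Qd t c) * v = (p : Qd t c) * x - y) :
    δ * Bf v y = p * Bf x y - 2 * Nz y := by
  have h1 := rel_re h
  have h2 := rel_im h
  unfold Bf Nz ip dt
  linear_combination (2 * y.re + t * y.im) * h1 + (t * y.re + 2 * c * y.im) * h2

lemma rel_Nz (h : ((δ : ℤ) : Qd t c) * v = (p : Qd t c) * x - y) :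
    δ ^ 2 * Nz v = p ^ 2 * Nz x - p * Bf x y + Nz y := by
  have h1 := rel_re h
  have h2 := rel_im h
  have h3 : δ ^ 2 * Nz v = (δ * v.re) ^ 2 + t * (δ * v.re) * (δ * v.im) +
      c * (δ * v.im) ^ 2 := by unfold Nz; ring
  rw [h3, h1, h2]
  unfold Bf Nz ip dt
  ring

lemma rel_ip (h : ((δ : ℤ) : Qd t c) * v = (p : Qd t c) * x - y) :
    p * ip v x = ip v y + δ * Nz v := by
  have h1 := rel_re h
  have h2 := rel_im h
  unfold Nz ip
  linear_combination (-(v.re + t * v.im)) * h1 - (c * v.im) * h2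

end rel

/-- `nm x` is prime to `q` for `x` in the colour -/
lemma cop_of_cg {q : ℕ} {x : Qd t c} (h : cg q x) : Nat.Coprime (nm x) q := by
  obtain ⟨⟨a, ha⟩, m, -, ⟨b, hb⟩⟩ := h
  have h1 : IsCoprime x.re (q : ℤ) := ⟨m, -b, by linarith⟩
  have h2 : IsCoprime (Nz x) (q : ℤ) := by
    have h3 : Nz x = x.re ^ 2 + (q : ℤ) * (t * x.re * a + c * (q * a ^ 2)) := by
      unfold Nz; rw [ha]; ring
    rw [h3]
    exact (IsCoprime.add_mul_left_left_iff).2 (h1.pow_left)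
  have h4 : IsCoprime ((nm x : ℕ) : ℤ) (q : ℤ) := by
    rw [nm_eq_abs]
    rcases abs_choice (Nz x) with h | h
    · rw [h]; exact h2
    · rw [h]; exact h2.neg_left
  exact Nat.isCoprime_iff_coprime.1 h4

/-! ### Orientation of the pairs -/

/-- swap and conjugate -/
def tw (b₁ b₂ : Bool) (e : Qd t c × Qd t c) : Qd t c × Qd t c :=
  if b₂ then (star (if b₁ then e.2 else e.1), star (if b₁ then e.1 else e.2))
  else ((if b₁ then e.2 else e.1), (if b₁ then e.1 else e.2))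

lemma tw_inj (b₁ b₂ : Bool) {e f : Qd t c × Qd t c} (h : tw b₁ b₂ e = tw b₁ b₂ f) : e = f := by
  unfold tw at h
  cases b₁ <;> cases b₂ <;> simp only [Bool.false_eq_true, if_false, if_true, Prod.mk.injEq,
    star_inj] at h <;> ext1
  all_goals first
    | exact h.1
    | exact h.2

lemma Ri_star {A P₀ P : ℕ} {z : Qd t c} (h : Ri A P₀ P z) : Ri A P₀ P (star z) := by
  unfold Ri at *
  simpa only [nm_star] using h

lemma cg_star {q : ℕ} {z : Qd t c} (h : cg q z) : cg q (star z) := by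
  obtain ⟨h1, m, h2, h3⟩ := h
  refine ⟨by rw [QuadraticAlgebra.im_star]; exact h1.neg_right, m, h2, ?_⟩
  rw [QuadraticAlgebra.re_star]
  have h4 : (m : ℤ) * (z.re + t * z.im) - 1 = (m * z.re - 1) + z.im * (m * t) := by ring
  rw [h4]
  exact dvd_add h3 (Dvd.dvd.mul_right h1 _)

lemma Gp.swap {q T : ℕ} {B X : ℝ} {x y : Qd t c} (h : Gp q T B X (x, y)) : Gp q T B X (y, x) := by
  obtain ⟨h1, h2, h3, h4, h5, h6, h7, h8, h9, h10, h11, h12, h13, h14⟩ := h
  refine ⟨h2, h1, h4, h3, h6, h5, h9, h10, h7, h8, ?_, ?_, fun h => h13 h.symm, ?_⟩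
  · show dt y x ≠ 0
    rw [dt_comm]; exact neg_ne_zero.2 h11
  · show |dt y x| ≤ T
    rw [dt_comm, abs_neg]; exact h12
  · show 0 < Bf y x
    rw [Bf_comm]; exact h14

lemma Gp.star {q T : ℕ} {B X : ℝ} {x y : Qd t c} (h : Gp q T B X (x, y)) :
    Gp q T B X (star x, star y) := by
  obtain ⟨h1, h2, h3, h4, h5, h6, h7, h8, h9, h10, h11, h12, h13, h14⟩ := h
  refine ⟨prim_star.2 h1, prim_star.2 h2, cg_star h3, cg_star h4, ?_, ?_, ?_, ?_, ?_, ?_, ?_, ?_,
    ?_, ?_⟩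
  · show Nz (Star.star x) = nm (Star.star x)
    rw [Nz_star, nm_star]; exact h5
  · show Nz (Star.star y) = nm (Star.star y)
    rw [Nz_star, nm_star]; exact h6
  · show B ≤ nm (Star.star x)
    rw [nm_star]; exact h7
  · show (nm (Star.star x) : ℝ) ≤ X
    rw [nm_star]; exact h8
  · show B ≤ nm (Star.star y)
    rw [nm_star]; exact h9
  · show (nm (Star.star y) : ℝ) ≤ X
    rw [nm_star]; exact h10
  · show dt (Star.star x) (Star.star y) ≠ 0
    rw [dt_star]; exact neg_ne_zero.2 h11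
  · show |dt (Star.star x) (Star.star y)| ≤ T
    rw [dt_star, abs_neg]; exact h12
  · show gl (Star.star x) ≠ gl (Star.star y)
    rw [gl_star, gl_star]; exact h13
  · show 0 < Bf (Star.star x) (Star.star y)
    rw [Bf_star]; exact h14

lemma other_sign {x y e : ℤ} (hx : x = 1 ∨ x = -1) (hy : y = 1 ∨ y = -1) (he : e = 1 ∨ e = -1)
    (hxy : x ≠ y) (hxe : x ≠ e) : y = e := by omega

/-- orientation -/
lemma orient {q T : ℕ} {B X : ℝ} {K' : Qd t c → Prop} (hK : ∀ z, K' z → K' (star z)) {A P₀ P : ℕ}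
    {e : Qd t c × Qd t c} (h : Gp q T B X e) (k1 : K' e.1) (k2 : K' e.2) (r1 : Ri A P₀ P e.1)
    (r2 : Ri A P₀ P e.2) {s : ℤ} (hs : s = 1 ∨ s = -1) : ∃ (b₁ b₂ : Bool) (x y : Qd t c),
    tw b₁ b₂ e = (x, y) ∧ Gp q T B X (x, y) ∧ K' x ∧ K' y ∧ Ri A P₀ P y ∧ gl x = s ∧
      0 < dt x y := by
  obtain ⟨x, y⟩ := e
  have step : ∀ (b₁ : Bool) (x' y' : Qd t c), (x', y') = ((if b₁ then y else x),
      (if b₁ then x else y)) → Gp q T B X (x', y') → K' x' → K' y' → Ri A P₀ P y' → gl x' = s →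
      ∃ (b₁ b₂ : Bool) (x₁ y₁ : Qd t c), tw b₁ b₂ (x, y) = (x₁, y₁) ∧ Gp q T B X (x₁, y₁) ∧
        K' x₁ ∧ K' y₁ ∧ Ri A P₀ P y₁ ∧ gl x₁ = s ∧ 0 < dt x₁ y₁ := by
    intro b₁ x' y' he h' k1' k2' r2' hs'
    rw [Prod.mk.injEq] at he
    rcases lt_or_gt_of_ne h'.dt0 with hlt | hgt
    · refine ⟨b₁, true, star x', star y', ?_, h'.star, hK _ k1', hK _ k2', Ri_star r2', ?_, ?_⟩
      · simp only [tw, if_true, he.1, he.2]
      · rw [gl_star]; exact hs'
      · rw [dt_star]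
        simp only at hlt
        linarith
    · refine ⟨b₁, false, x', y', ?_, h', k1', k2', r2', hs', hgt⟩
      simp only [tw, Bool.false_eq_true, if_false, he.1, he.2]
  by_cases hx : gl x = s
  · exact step false x y (by simp) h k1 k2 r2 hx
  · exact step true y x (by simp) h.swap k2 k1 r1
      (other_sign (gl_eq x) (gl_eq y) hs h.ne hx)

/-- `n` in the fibre -/
def fn (k : Tr × ℕ × ℕ × Bool × Bool × Bool) : ℤ :=
  if k.2.2.2.2.2 then k.1.2.1 else k.1.2.1 + k.2.1 * k.1.1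

/-- `d` in the fibre -/
def fm (k : Tr × ℕ × ℕ × Bool × Bool × Bool) : ℕ :=
  if k.2.2.2.2.2 then k.1.1 else k.2.2.1 * k.1.1

/-- the local step: a good pair gives a triple -/
lemma local_step {q T : ℕ} {B X c₁ : ℝ} (hq : 1 ≤ q) (hqD : 4 * (t ^ 2 - 4 * c) ∣ (q : ℤ))
    (hpath : S_PATHG t c) (hc₁ : 0 < c₁) {P₀ P : ℕ} (hP₀ : 4 / c₁ ≤ P₀)
    (hB : B = c₁ * X) (hX : |((t ^ 2 - 4 * c : ℤ) : ℝ)| * T ^ 2 + 1 ≤ c₁ * X) {x y : Qd t c}
    (h : Gp q T B X (x, y)) (hy : Ri (q * T.factorial) P₀ P y) (hd : 0 < dt x y) {e₁ : ℤ}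
    (he₁ : e₁ = 1 ∨ e₁ = -1) :
    ∃ (v : Qd t c) (p δ : ℕ) (b₃ : Bool) (τ : Tr), P₀ < p ∧ p ≤ P ∧ (δ : ℤ) = dt x y ∧ 1 ≤ δ ∧
      δ ≤ T ∧ ((dt x y : ℤ) : Qd t c) * v = (p : Qd t c) * x - y ∧ dt v x = 1 ∧
      (∀ b₁ b₂ : Bool, ip v x = fn (τ, δ, p, b₁, b₂, b₃) ∧ nm v = fm (τ, δ, p, b₁, b₂, b₃)) ∧
      τ ∈ tri t c (((P : ℝ) ^ 2 + 1) * X) (((P : ℝ) ^ 2 + 1) * X) ∧ R4 q e₁ (gl x) τ := by
  obtain ⟨r, hr1, hr2, hr⟩ := hpath q T x y hq hqD h.pr1 h.pr2 h.cg1 h.cg2 hd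
    ((le_abs_self _).trans h.dt1)
  obtain ⟨p, hp, hpP₀, hpP, hpn, hpr⟩ := hy r hr1 hr2
  obtain ⟨v, n₂, hvx, hvy, hrel, hqv, hn₂, hqn, hpv⟩ := hr p hp hpr hpn
  have hnx : Nz x = nm x := h.nz1
  have hny : Nz y = nm y := h.nz2
  have hbf : 0 < Bf x y := h.bf
  -- real inequalities
  set A : ℝ := (nm x : ℝ) with hA
  set C : ℝ := (nm y : ℝ) with hC
  set b : ℝ := (Bf x y : ℝ) with hb
  set D : ℝ := ((t ^ 2 - 4 * c : ℤ) : ℝ) with hD
  have hA1 : c₁ * X ≤ A := by rw [← hB]; exact h.n1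
  have hA2 : A ≤ X := h.n1'
  have hC1 : c₁ * X ≤ C := by rw [← hB]; exact h.n2
  have hC2 : C ≤ X := h.n2'
  have hb0 : 0 < b := by rw [hb]; exact_mod_cast hbf
  have hT1 : (dt x y : ℝ) ^ 2 ≤ (T : ℝ) ^ 2 := by
    have h1 : |((dt x y : ℤ) : ℝ)| ≤ T := by
      have : ((|dt x y| : ℤ) : ℝ) ≤ ((T : ℤ) : ℝ) := Int.cast_le.2 h.dt1
      rwa [Int.cast_abs, Int.cast_natCast] at this
    rw [← sq_abs]
    exact pow_le_pow_left₀ (abs_nonneg _) h1 2
  have hid : b ^ 2 = 4 * (A * C) + D * (dt x y : ℝ) ^ 2 := by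
    have h1 := Bf_sq x y
    rw [hnx, hny] at h1
    rw [hb, hA, hC, hD]
    exact_mod_cast h1
  have hDT : |D * (dt x y : ℝ) ^ 2| ≤ |D| * (T : ℝ) ^ 2 := by
    rw [abs_mul, abs_of_nonneg (sq_nonneg (dt x y : ℝ))]
    exact mul_le_mul_of_nonneg_left hT1 (abs_nonneg _)
  have hDT0 : 0 ≤ |D| * (T : ℝ) ^ 2 := by positivity
  have hcX : 1 ≤ c₁ * X := by linarith
  have hX0 : 0 < X := by
    by_contra h0
    push Not at h0
    have : c₁ * X ≤ 0 := mul_nonpos_of_nonneg_of_nonpos hc₁.le h0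
    linarith
  have hA0 : 0 < A := by linarith
  have hC0 : 0 < C := by linarith
  have hpc : 4 < p * c₁ := by
    have h1 : (P₀ : ℝ) < p := by exact_mod_cast hpP₀
    have h2 : 4 / c₁ < p := lt_of_le_of_lt hP₀ h1
    rwa [div_lt_iff₀ hc₁] at h2
  have hp1 : (1 : ℝ) ≤ p := by exact_mod_cast hp.one_lt.le
  have hp0 : (0 : ℝ) < p := by linarith
  have hpA : 4 * X < p * A := by
    have : p * (c₁ * X) ≤ p * A := mul_le_mul_of_nonneg_left hA1 hp0.le
    nlinarith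
  -- `Bf < p nm x`
  have i1 : b < p * A := by
    have h1 : b ^ 2 < (p * A) ^ 2 := by
      have h2 : D * (dt x y : ℝ) ^ 2 ≤ |D| * (T : ℝ) ^ 2 := (le_abs_self _).trans hDT
      have h3 : b ^ 2 ≤ 4 * (X * X) + X * X := by
        have h4 : A * C ≤ X * X := mul_le_mul hA2 hC2 hC0.le hX0.le
        have h5 : |D| * (T : ℝ) ^ 2 ≤ X * X := by
          have h6 : c₁ * X ≤ X := hA1.trans hA2
          have h7 : (1 : ℝ) ≤ X := hcX.trans h6
          have h8 : X * 1 ≤ X * X := mul_le_mul_of_nonneg_left h7 hX0.le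
          linarith
        rw [hid]
        linarith
      have h9 : (4 * X) ^ 2 < (p * A) ^ 2 := pow_lt_pow_left₀ hpA (by positivity) two_ne_zero
      nlinarith
    exact lt_of_pow_lt_pow_left₀ 2 (by positivity) h1
  -- `2 nm y < p Bf`
  have i2 : 2 * C < p * b := by
    have h1 : (2 * C) ^ 2 < (p * b) ^ 2 := by
      have h2 : -(|D| * (T : ℝ) ^ 2) ≤ D * (dt x y : ℝ) ^ 2 := (abs_le.1 hDT).1
      have h3 : 3 * (A * C) ≤ b ^ 2 := by
        have h4 : |D| * (T : ℝ) ^ 2 ≤ A * C := by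
          have h5 : c₁ * X * 1 ≤ A * C := by
            apply mul_le_mul hA1 _ zero_le_one hA0.le
            exact hcX.trans hC1
          linarith
        rw [hid]
        linarith
      have h6 : 3 * (4 * X * C) < p * (3 * (A * C)) := by
        have : 4 * X * C < p * A * C := mul_lt_mul_of_pos_right hpA hC0
        linarith
      have h7 : p * (3 * (A * C)) ≤ p * (p * b ^ 2) := by
        apply mul_le_mul_of_nonneg_left _ hp0.le
        have : b ^ 2 ≤ p * b ^ 2 := by nlinarith [sq_nonneg b]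
        linarith
      have h8 : (2 * C) ^ 2 ≤ 4 * X * C := by nlinarith
      nlinarith
    exact lt_of_pow_lt_pow_left₀ 2 (by positivity) h1
  have i1' : Bf x y < p * nm x := by
    have : ((Bf x y : ℤ) : ℝ) < (((p * nm x : ℕ) : ℤ) : ℝ) := by push_cast; exact i1
    exact_mod_cast this
  have i2' : 2 * (nm y : ℤ) < p * Bf x y := by
    have : ((2 * (nm y : ℤ) : ℤ) : ℝ) < ((p * Bf x y : ℤ) : ℝ) := by push_cast; exact i2
    exact_mod_cast this
  obtain ⟨δ, hδ⟩ : ∃ δ : ℕ, (δ : ℤ) = dt x y := ⟨(dt x y).toNat, Int.toNat_of_nonneg hd.le⟩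
  have hδ1 : 1 ≤ δ := by
    have : (0 : ℤ) < δ := by rw [hδ]; exact hd
    omega
  have hδT : δ ≤ T := by
    have : (δ : ℤ) ≤ T := by rw [hδ]; exact (le_abs_self _).trans h.dt1
    omega
  have hδ0 : (0 : ℤ) < δ := by omega
  have hpz : (0 : ℤ) < p := by exact_mod_cast hp.pos
  have r1 := rel_Bx hrel
  have r2 := rel_By hrel
  have r3 := rel_Nz hrel
  have r4 := rel_ip hrel
  rw [← hδ, hnx] at r1
  rw [← hδ, hny] at r2
  rw [← hδ, hnx, hny] at r3
  rw [← hδ] at r4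
  -- positivity of `Nz v`
  have hNv : 0 < Nz v := by
    have h1 : 0 < (δ : ℤ) ^ 2 * Nz v := by
      rw [r3]
      have h2 : (p : ℤ) * Bf x y < p * (p * nm x) := mul_lt_mul_of_pos_left i1' hpz
      have h3 : (0 : ℤ) ≤ nm y := Int.natCast_nonneg _
      nlinarith
    exact pos_of_mul_pos_right h1 (by positivity) |>.trans_le le_rfl
  have hnv : Nz v = nm v := by rw [nm_eq_abs, abs_of_pos hNv]
  have hBx : 0 < Bf v x := by
    have h1 : 0 < (δ : ℤ) * Bf v x := by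
      rw [r1]
      have h2 : (0 : ℤ) ≤ p * nm x := by positivity
      linarith
    exact pos_of_mul_pos_right h1 hδ0.le
  have hBy : 0 < Bf v y := by
    have h1 : 0 < (δ : ℤ) * Bf v y := by rw [r2]; linarith
    exact pos_of_mul_pos_right h1 hδ0.le
  -- size of `nm v`
  have hnvX : (nm v : ℝ) ≤ ((P : ℝ) ^ 2 + 1) * X := by
    have h1 : Nz v ≤ p ^ 2 * nm x + nm y := by
      have h2 : Nz v ≤ (δ : ℤ) ^ 2 * Nz v := by
        have : (1 : ℤ) ≤ (δ : ℤ) ^ 2 := one_le_pow₀ (by omega)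
        nlinarith
      have h3 : 0 ≤ (p : ℤ) * Bf x y := by positivity
      linarith
    rw [hnv] at h1
    have h2 : (nm v : ℝ) ≤ (p : ℝ) ^ 2 * A + C := by
      rw [hA, hC]; exact_mod_cast h1
    have hpP' : (p : ℝ) ≤ P := by exact_mod_cast hpP
    have h3 : (p : ℝ) ^ 2 * A ≤ (P : ℝ) ^ 2 * X :=
      mul_le_mul (pow_le_pow_left₀ hp0.le hpP' 2) hA2 hA0.le (by positivity)
    linarith
  have hXL : X ≤ ((P : ℝ) ^ 2 + 1) * X := by nlinarith [sq_nonneg (P : ℝ)]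
  have hnv1 : 1 ≤ nm v := by
    have : (0 : ℤ) < nm v := by rw [← hnv]; exact hNv
    omega
  have hnx1 : 1 ≤ nm x := by
    have : (0 : ℝ) < (nm x : ℝ) := hA0
    have h2 : 0 < nm x := by exact_mod_cast this
    omega
  have hny1 : 1 ≤ nm y := by
    have : (0 : ℝ) < (nm y : ℝ) := hC0
    have h2 : 0 < nm y := by exact_mod_cast this
    omega
  by_cases hv : gl v = e₁
  · -- type A
    refine ⟨v, p, δ, true, (nm v, ip v x, nm x), hpP₀, hpP, hδ, hδ1, hδT, hrel, hvx,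
      fun b₁ b₂ => ⟨rfl, rfl⟩, mem_tri.2 ⟨hnv1, hnvX, hnx1, hA2.trans hXL, ?_, ?_⟩, hqv,
      cop_of_cg h.cg1, hv, rfl⟩
    · have h1 := Nz_mul_Nz v x
      rw [hvx, hnv, hnx] at h1
      simp only
      rw [h1]
      unfold Qp
      ring
    · have h1 : Bf v x = 2 * ip v x + t := by unfold Bf; rw [hvx]; ring
      simp only
      rw [← h1]
      exact hBx.le
  · -- type B
    obtain ⟨a', ha'⟩ := hpv
    obtain ⟨b', hb'⟩ := hpn
    have ha1 : 1 ≤ a' := by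
      rcases Nat.eq_zero_or_pos a' with h0 | h0
      · rw [h0, mul_zero] at ha'; omega
      · exact h0
    have hb1 : 1 ≤ b' := by
      rcases Nat.eq_zero_or_pos b' with h0 | h0
      · rw [h0, mul_zero] at hb'; omega
      · exact h0
    have hlv : lam a' = -gl v := by
      unfold gl
      rw [ha', lam_mul hp.ne_zero (by omega), lam_prime hp]
      ring
    have hly : lam b' = -gl y := by
      unfold gl
      rw [hb', lam_mul hp.ne_zero (by omega), lam_prime hp]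
      ring
    have hlv' : lam a' = e₁ := by
      rw [hlv]
      rcases gl_eq v with h1 | h1 <;> rcases he₁ with h2 | h2 <;> rw [h1, h2] at hv ⊢ <;>
        first | exact absurd rfl hv | rfl
    have hly' : lam b' = gl x := by
      rw [hly]
      have h5 : gl x ≠ gl y := h.ne
      rcases gl_eq x with h1 | h1 <;> rcases gl_eq y with h2 | h2 <;> rw [h1, h2] at h5 ⊢ <;>
        first | exact absurd rfl h5 | rfl
    have haX : a' ≤ nm v := by rw [ha']; exact Nat.le_mul_of_pos_left _ hp.pos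
    have hbX : b' ≤ nm y := by rw [hb']; exact Nat.le_mul_of_pos_left _ hp.pos
    refine ⟨v, p, δ, false, (a', n₂, b'), hpP₀, hpP, hδ, hδ1, hδT, hrel, hvx,
      fun b₁ b₂ => ⟨?_, ha'⟩, mem_tri.2 ⟨ha1, ?_, hb1, ?_, ?_, ?_⟩, hqn, ?_, hlv', hly'⟩
    · unfold fn
      simp only [Bool.false_eq_true, if_false]
      rw [hn₂, hnv, ha'] at r4
      push_cast at r4
      have h1 : (p : ℤ) * ip v x = p * (n₂ + δ * a') := by rw [r4]; ring
      exact mul_left_cancel₀ hpz.ne' h1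
    · have h1 : (a' : ℝ) ≤ nm v := by exact_mod_cast haX
      exact h1.trans hnvX
    · have h1 : (b' : ℝ) ≤ nm y := by exact_mod_cast hbX
      exact (h1.trans hC2).trans hXL
    · have h1 := Nz_mul_Nz v y
      rw [hvy, hnv, hny, hn₂, ha', hb'] at h1
      push_cast at h1
      have h2 : ((p : ℤ) ^ 2) * ((a' : ℤ) * b') = (p : ℤ) ^ 2 * Qp t c n₂ := by
        unfold Qp
        linear_combination h1
      exact mul_left_cancel₀ (pow_ne_zero 2 hpz.ne') h2
    · have h1 : Bf v y = p * (2 * n₂ + t) := by unfold Bf; rw [hvy, hn₂]; ring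
      rw [h1] at hBy
      exact (pos_of_mul_pos_right hBy hpz.le).le
    · have h1 := cop_of_cg h.cg2
      simp only at h1
      rw [hb'] at h1
      exact Nat.Coprime.coprime_mul_left h1

/-- a positive proportion of the triples -/
theorem pos {q : ℕ} {K' K : Qd t c → Prop} (hq : 1 ≤ q) (hqD : 4 * (t ^ 2 - 4 * c) ∣ (q : ℤ))
    (hpath : S_PATHG t c) (hfib : S_FIBK K) (hclk : S_CLK K' K) (hpairs : S_PAIRS q K') :
    S_POST t c q := by
  classical
  intro e₁ e₂ he₁ he₂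
  obtain ⟨W, hW⟩ := hfib
  obtain ⟨T, c₁, hT, hc₁, hpairs⟩ := hpairs
  obtain ⟨hstar, hclk⟩ := hclk
  obtain ⟨P₁, hclk⟩ := hclk T c₁ hc₁
  obtain ⟨P₂, hP₂⟩ := exists_nat_ge (4 / c₁)
  obtain ⟨P, ε, X₀, hε, hpairs⟩ := hpairs (q * T.factorial) (max P₁ P₂)
    (Nat.mul_pos hq (Nat.factorial_pos T)) (by
      push_cast
      exact Dvd.dvd.mul_right hqD _)
  have hP₀ : 4 / c₁ ≤ ((max P₁ P₂ : ℕ) : ℝ) := by
    refine hP₂.trans ?_
    exact_mod_cast le_max_right P₁ P₂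
  set L : ℝ := (P : ℝ) ^ 2 + 1 with hL
  have hL1 : 1 ≤ L := by rw [hL]; nlinarith [sq_nonneg (P : ℝ)]
  have hL0 : 0 < L := by linarith
  set N : ℕ := (T + 1) * ((P + 1) * 8) with hN
  have hN0 : (0 : ℝ) < N := by rw [hN]; positivity
  set Δ : ℝ := |((t ^ 2 - 4 * c : ℤ) : ℝ)| with hΔ
  have hΔ0 : 0 ≤ Δ := abs_nonneg _
  refine ⟨ε / (L * (N * (W + 1))), by positivity, L * (|X₀| + (Δ * T ^ 2 + 1) / c₁ + 1),
    fun X' hX' => ?_⟩
  set X : ℝ := X' / L with hXdef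
  have hLX : L * X = X' := by rw [hXdef]; field_simp
  have hbig : |X₀| + (Δ * T ^ 2 + 1) / c₁ + 1 ≤ X := by
    rw [hXdef, le_div_iff₀ hL0]
    linarith
  have p1 := abs_nonneg X₀
  have p2 : 0 ≤ (Δ * T ^ 2 + 1) / c₁ := by positivity
  have hX1 : X₀ ≤ X := (le_abs_self _).trans (by linarith)
  have hX0 : 0 < X := by linarith
  have hXc : Δ * T ^ 2 + 1 ≤ c₁ * X := by
    have : (Δ * T ^ 2 + 1) / c₁ ≤ X := by linarith
    rw [div_le_iff₀ hc₁] at this
    linarith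
  obtain ⟨S, hSc, hS⟩ := hpairs X hX1
  set G : Finset Tr := (tri t c X' X').filter (R4 q e₁ e₂) with hG
  have key : ∀ e : Qd t c × Qd t c, ∃ (k : Tr × ℕ × ℕ × Bool × Bool × Bool)
      (w : Qd t c × Qd t c), e ∈ S → (k.1 ∈ G ∧ k.2.1 ≤ T ∧ k.2.2.1 ≤ P ∧ K w.1 ∧
        dt w.1 w.2 = 1 ∧ ip w.1 w.2 = fn k ∧ nm w.1 = fm k ∧ tw k.2.2.2.1 k.2.2.2.2.1 e =
          (w.2, (k.2.2.1 : Qd t c) * w.2 - ((k.2.1 : ℤ) : Qd t c) * w.1)) := by
    intro e
    by_cases he : e ∈ S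
    swap
    · exact ⟨((0, 0, 0), 0, 0, true, true, true), (0, 0), fun h => absurd h he⟩
    obtain ⟨hgp, hk1, hk2, hr1, hr2⟩ := hS e he
    obtain ⟨b₁, b₂, x, y, htw, hgp', hkx, hky, hry, hgx, hd⟩ :=
      orient hstar hgp hk1 hk2 hr1 hr2 he₂
    obtain ⟨v, p, δ, b₃, τ, hpP₀, hpP, hδ, hδ1, hδT, hrel, hvx, hfn, hτ, hR⟩ :=
      local_step hq hqD hpath hc₁ hP₀ rfl hXc hgp' hry hd he₁
    refine ⟨(τ, δ, p, b₁, b₂, b₃), (v, x), fun _ => ⟨?_, hδT, hpP, ?_, hvx, (hfn b₁ b₂).1,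
      (hfn b₁ b₂).2, ?_⟩⟩
    · rw [hG, mem_filter, ← hLX]
      rw [hgx] at hR
      exact ⟨hτ, hR⟩
    · exact hclk X x y v p hX0 hkx hky hgp'.nz1 hgp'.nz2 hgp'.n1 hgp'.n1' hgp'.n2 hgp'.n2'
        hgp'.bf hd ((le_abs_self _).trans hgp'.dt1) ((le_max_left _ _).trans hpP₀.le) hrel
    · show tw b₁ b₂ e = (x, (p : Qd t c) * x - ((δ : ℤ) : Qd t c) * v)
      rw [htw, hδ, hrel, sub_sub_cancel]
  choose k w hkw using key
  set codes : Finset (Tr × ℕ × ℕ × Bool × Bool × Bool) :=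
    G ×ˢ (range (T + 1) ×ˢ (range (P + 1) ×ˢ Finset.univ)) with hcodes
  have hcard : codes.card = G.card * N := by
    rw [hcodes, card_product, card_product, card_product, card_range, card_range, hN,
      Finset.card_univ]
    simp
  have hmap : ∀ e ∈ S, k e ∈ codes := by
    intro e he
    obtain ⟨h1, h2, h3, -⟩ := hkw e he
    rw [hcodes, mem_product, mem_product, mem_product, mem_range, mem_range]
    exact ⟨h1, by omega, by omega, Finset.mem_univ _⟩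
  have hfibre : ∀ κ ∈ codes, (S.filter (fun e => k e = κ)).card ≤ W := by
    intro κ _
    have hinj : Set.InjOn w (S.filter (fun e => k e = κ) : Finset (Qd t c × Qd t c)) := by
      intro e he f hf hef
      rw [coe_filter] at he hf
      obtain ⟨heS, hek⟩ := he
      obtain ⟨hfS, hfk⟩ := hf
      obtain ⟨-, -, -, -, -, -, -, h1⟩ := hkw e heS
      obtain ⟨-, -, -, -, -, -, -, h2⟩ := hkw f hfS
      rw [hek, hef] at h1
      rw [hfk] at h2
      exact tw_inj _ _ (h1.trans h2.symm)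
    rw [← card_image_of_injOn hinj]
    apply hW (fn κ) (fm κ)
    intro z hz
    rw [mem_image] at hz
    obtain ⟨e, he, rfl⟩ := hz
    rw [mem_filter] at he
    obtain ⟨-, -, -, h1, h2, h3, h4, -⟩ := hkw e he.1
    rw [he.2] at h3 h4
    exact ⟨h1, h2, h3, h4⟩
  have hmain := card_le_mul_card_image_of_maps_to hmap W hfibre
  rw [hcard] at hmain
  have hmain' : (S.card : ℝ) ≤ W * (G.card * N) := by exact_mod_cast hmain
  have hfin : ε * X ≤ (W + 1) * (G.card * N) := by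
    have : (0 : ℝ) ≤ G.card * N := by positivity
    nlinarith
  have e1 : ε / (L * (N * (W + 1))) * X' = ε * X / (N * (W + 1)) := by
    rw [← hLX]; field_simp
  rw [e1, div_le_iff₀ (by positivity)]
  calc ε * X ≤ (W + 1) * (G.card * N) := hfin
    _ = (G.card : ℝ) * (N * (W + 1)) := by ring

end Pool.Agent.W84.G
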