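import Pool.Agent.W84.G.Defs

/-!
Project G (helper84): statements for positive discriminant which use the pairs of helper80.
-/

set_option autoImplicit false

namespace Pool.Agent.W84.G

open Finset Filter
open Pool.Agent.H376R2.MR
open Pool.Agent.W78.GA (Qd nm prim gl dt ip)
open Pool.Agent.W78.GR (tp fd ang)
open Pool.Agent.W80.GC (cl)

variable {t c : ℤ}

/-- all prime factors of the norm are split (same as `W80.GC.spl`) -/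
def spl2 (z : Qd t c) : Prop := ∀ p : ℕ, p.Prime → p ∣ nm z → jacobiSym (t ^ 2 - 4 * c) p = 1

/-- a pair of elements of opposite sign with small determinant (same as `W80.GC.Pr`) -/
structure Pr2 (η : (Qd t c)ˣ) (Q T : ℕ) (B X : ℝ) (e : Qd t c × Qd t c) : Prop where
  fd1 : fd η e.1
  pr1 : prim e.1
  cl1 : cl Q e.1
  tp2 : tp e.2
  cl2 : cl Q e.2
  sp1 : spl2 e.1
  sp2 : spl2 e.2
  n1 : B ≤ nm e.1
  n1' : (nm e.1 : ℝ) ≤ X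
  n2 : B ≤ nm e.2
  n2' : (nm e.2 : ℝ) ≤ X
  dt0 : dt e.1 e.2 ≠ 0
  dt1 : |dt e.1 e.2| ≤ T
  ne : gl e.1 ≠ gl e.2
  an : |ang η e.1 - ang η e.2| ≤ 1

/-- RP2: many pairs, both members rich -/
def S_RP2 (η : (Qd t c)ˣ) (Q : ℕ) : Prop := ∃ (T : ℕ) (c₁ ε : ℝ), 1 ≤ T ∧ 0 < c₁ ∧ 0 < ε ∧
  ∀ A P₀ : ℕ, 0 < A → 4 * (t ^ 2 - 4 * c) ∣ (A : ℤ) → ∃ (P : ℕ) (X₀ : ℝ),
  ∀ X : ℝ, X₀ ≤ X → ∃ S : Finset (Qd t c × Qd t c), ε * X ≤ (S.card : ℝ) ∧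
    ∀ e ∈ S, Pr2 η Q T (c₁ * X) X e ∧ Ri A P₀ P e.1 ∧ Ri A P₀ P e.2

end Pool.Agent.W84.G
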