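import Pool.Agent.W80.GC.Cnt
import Pool.Agent.W84.G.Defs2

/-!
Project G (helper84): RP2, many pairs of helper80's kind with both members rich.
-/

set_option autoImplicit false

namespace Pool.Agent.W84.G

open Finset Filter
open Pool.Agent.H376R2.MR
open Pool.Agent.W78.GR
open Pool.Agent.W54.GR (exists_primpart)
open Pool.Agent.W80.GC (cl Pr Rich rich_all scp_of a0c u0c nonrich_card line_card lat_all)

variable {t c : ℤ} {η : (Qd t c)ˣ} {Q : ℕ}

lemma dt_swap (v u : Qd t c) : dt v u = -dt u v := by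
  unfold dt; ring

lemma nonrich_card2 (U : Un t c η) {T : ℕ} (hT : 1 ≤ T) {X c₁ : ℝ} (hc : 0 < c₁) (hX : 0 < X)
    (V : Finset (Qd t c)) (S : Finset (Qd t c × Qd t c))
    (hS : ∀ e ∈ S, Pr η Q T (c₁ * X) X e) (hV : ∀ e ∈ S, rep η e.2 ∈ V) :
    S.card ≤ ((2 * ⌈s1 (η : Qd t c) ^ 2 / Real.sqrt (c₁ / (T : ℝ) ^ 2)⌉₊ + 1) * (2 * T + 1)) *
      V.card := by
  classical
  have hTR : (0 : ℝ) < T := by exact_mod_cast hT
  have hc2 : 0 < c₁ / (T : ℝ) ^ 2 := by positivity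
  refine card_le_mul_card_image_of_maps_to hV _ ?_
  intro z _
  set F : Finset (Qd t c × Qd t c) := S.filter (fun e => rep η e.2 = z) with hF
  rcases F.eq_empty_or_nonempty with hE | ⟨e₀, he₀⟩
  · rw [hE]; simp
  have hFS : ∀ e ∈ F, Pr η Q T (c₁ * X) X e ∧ rep η e.2 = z := by
    intro e he
    rw [hF, mem_filter] at he
    exact ⟨hS e he.1, he.2⟩
  obtain ⟨p0, hz0⟩ := hFS e₀ he₀
  have hfz : fd η z := by rw [← hz0]; exact U.rep_fd p0.tp2
  have hnz : c₁ * X ≤ nm z := by rw [← hz0, Un.nm_rep]; exact p0.n2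
  obtain ⟨y, n, hn, hy, hzy⟩ := exists_primpart (tp_ne_zero hfz.1)
  have hnR : (0 : ℝ) < n := by exact_mod_cast hn
  have hty : tp y := by
    have h1 := hfz.1
    rw [hzy] at h1
    obtain ⟨h2, h3⟩ := h1
    rw [s1_mul U.disc, s1_natCast] at h2
    rw [s2_mul U.disc, s2_natCast] at h3
    exact ⟨(mul_pos_iff_of_pos_left hnR).1 h2, (mul_pos_iff_of_pos_left hnR).1 h3⟩
  have hangy : ang η z = ang η y := by
    rw [hzy, ang_mul U.disc (tp_natCast hn) hty, ang_natCast hn, zero_add]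
  have hfy : fd η y := by
    refine ⟨hty, ?_, ?_⟩
    · rw [← hangy]; exact hfz.2.1
    · rw [← hangy]; exact hfz.2.2
  have hnm : nm z = n ^ 2 * nm y := by rw [hzy, nm_mul, nm_natCast]
  -- the first member, moved by the unit
  set f : Qd t c × Qd t c → Qd t c := fun e =>
    ((η ^ ex η e.2 : (Qd t c)ˣ) : Qd t c) * e.1 with hf
  have hrep : ∀ e : Qd t c × Qd t c, rep η e.2 = ((η ^ ex η e.2 : (Qd t c)ˣ) : Qd t c) * e.2 :=
    fun e => rfl
  have hdtz : ∀ w : Qd t c, dt z w = n * dt y w := by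
    intro w
    rw [hzy]
    unfold dt
    simp only [QuadraticAlgebra.re_mul, QuadraticAlgebra.im_mul, QuadraticAlgebra.re_natCast,
      QuadraticAlgebra.im_natCast]
    ring
  have hprop : ∀ e ∈ F, tp (f e) ∧ (nm (f e) : ℝ) ≤ X ∧ |ang η y - ang η (f e)| ≤ 1 ∧
      n ∣ T.factorial ∧ |dt y (f e)| ≤ T ∧ (n : ℤ) ≤ T := by
    intro e he
    obtain ⟨h1, h2⟩ := hFS e he
    have e1 : ang η (f e) = ang η e.1 + 2 * Real.pi * (ex η e.2 : ℤ) :=
      U.ang_zpow_mul _ h1.fd1.1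
    have e2 : ang η z = ang η e.2 + 2 * Real.pi * (ex η e.2 : ℤ) := by
      rw [← h2, hrep]; exact U.ang_zpow_mul _ h1.tp2
    have e3 : dt z (f e) = -dt e.1 e.2 := by
      rw [← h2, hrep, hf]
      simp only
      rw [U.dt_zpow_mul, dt_swap]
    rw [hdtz] at e3
    have e4 : |(n : ℤ)| * |dt y (f e)| ≤ T := by
      rw [← abs_mul, e3, abs_neg]
      exact h1.dt1
    have e5 : dt y (f e) ≠ 0 := by
      intro h0
      rw [h0, mul_zero] at e3
      exact h1.dt0 (by linarith)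
    have e6 : 1 ≤ |dt y (f e)| := Int.one_le_abs e5
    have e7 : (1 : ℤ) ≤ |(n : ℤ)| := by
      rw [Nat.abs_cast]; exact_mod_cast hn
    have e8 : |dt y (f e)| ≤ T := by nlinarith
    have e9 : |(n : ℤ)| ≤ T := by nlinarith
    rw [Nat.abs_cast] at e9
    refine ⟨(U.tp_zpow_mul _).2 h1.fd1.1, ?_, ?_, ?_, e8, e9⟩
    · rw [hf]
      simp only
      rw [Un.nm_zpow_mul]
      exact h1.n1'
    · rw [← hangy, e1, e2]
      have := h1.an
      rw [abs_sub_comm] at this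
      have e : ang η e.2 + 2 * Real.pi * ((ex η e.2 : ℤ) : ℝ) -
          (ang η e.1 + 2 * Real.pi * ((ex η e.2 : ℤ) : ℝ)) = ang η e.2 - ang η e.1 := by ring
      rw [e]
      exact this
    · exact Nat.dvd_factorial hn (by exact_mod_cast e9)
  have hnT : (n : ℝ) ≤ T := by
    have := (hprop e₀ he₀).2.2.2.2.2
    exact_mod_cast this
  have hny : c₁ / (T : ℝ) ^ 2 * X ≤ nm y := by
    have h1 : (nm z : ℝ) = (n : ℝ) ^ 2 * nm y := by rw [hnm]; push_cast; ring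
    have h2 : (n : ℝ) ^ 2 ≤ (T : ℝ) ^ 2 := by gcongr
    have h3 : c₁ * X ≤ (T : ℝ) ^ 2 * nm y := by
      calc c₁ * X ≤ nm z := hnz
        _ = (n : ℝ) ^ 2 * nm y := h1
        _ ≤ (T : ℝ) ^ 2 * nm y := mul_le_mul_of_nonneg_right h2 (Nat.cast_nonneg _)
    rw [div_mul_eq_mul_div, div_le_iff₀ (by positivity)]
    linarith
  -- injectivity
  have hinj : Set.InjOn f F := by
    intro e he e' he' hee
    obtain ⟨h1, h2⟩ := hFS e he
    obtain ⟨h1', h2'⟩ := hFS e' he'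
    have a1 : rep η (f e) = e.1 := by
      rw [hf]
      simp only
      rw [U.rep_zpow_mul _ h1.fd1.1, U.rep_eq_self h1.fd1]
    have a2 : rep η (f e') = e'.1 := by
      rw [hf]
      simp only
      rw [U.rep_zpow_mul _ h1'.fd1.1, U.rep_eq_self h1'.fd1]
    have a3 : e.1 = e'.1 := by rw [← a1, ← a2, hee]
    have b1 : ex η (f e) = - ex η e.2 := by
      rw [hf]
      simp only
      rw [U.ex_zpow_mul _ h1.fd1.1, Un.ex_fd h1.fd1]; ring
    have b2 : ex η (f e') = - ex η e'.2 := by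
      rw [hf]
      simp only
      rw [U.ex_zpow_mul _ h1'.fd1.1, Un.ex_fd h1'.fd1]; ring
    have b3 : ex η e.2 = ex η e'.2 := by
      rw [hee] at b1
      linarith
    have c1 : ((η ^ ex η e.2 : (Qd t c)ˣ) : Qd t c) * e.2 =
        ((η ^ ex η e.2 : (Qd t c)ˣ) : Qd t c) * e'.2 := by
      rw [← hrep, h2, ← h2', hrep, b3]
    exact Prod.ext a3 (mul_cancel U.nsq (tp_ne_zero (U.tp_zpow _)) c1)
  rw [← card_image_of_injOn hinj]
  have h := card_le_mul_card_image_of_maps_to (f := fun w : Qd t c => dt y w)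
    (s := F.image f) (t := Icc (-(T : ℤ)) T)
    (fun w hw => by
      rw [mem_image] at hw
      obtain ⟨e, he, rfl⟩ := hw
      exact mem_Icc.2 (abs_le.1 (hprop e he).2.2.2.2.1))
    (2 * ⌈s1 (η : Qd t c) ^ 2 / Real.sqrt (c₁ / (T : ℝ) ^ 2)⌉₊ + 1) (by
      intro k _
      apply line_card U hc2 hX hfy hy hny k
      intro w hw
      rw [mem_filter, mem_image] at hw
      obtain ⟨⟨e, he, rfl⟩, hk⟩ := hw
      have h1 := hprop e he
      exact ⟨h1.1, h1.2.1, h1.2.2.1, hk⟩)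
  rw [Int.card_Icc] at h
  have e : ((T : ℤ) + 1 - -(T : ℤ)).toNat = 2 * T + 1 := by omega
  rw [e] at h
  exact h

/-- RP2 -/
theorem rp2 (U : Un t c η) (hQ1 : 1 ≤ Q) (hη : cl Q (η : Qd t c))
    (hQ : 4 * (t ^ 2 - 4 * c) ∣ (Q : ℤ)) : S_RP2 η Q := by
  classical
  have h2Q : 2 ∣ Q := by
    have h1 : (4 : ℤ) ∣ Q := (Dvd.intro _ rfl).trans hQ
    have h2 : (2 : ℤ) ∣ Q := (by norm_num : (2 : ℤ) ∣ 4).trans h1
    exact_mod_cast h2
  have hdQ : (t ^ 2 - 4 * c) ∣ (Q : ℤ) := (Dvd.intro_left 4 rfl).trans hQ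
  obtain ⟨T, c₁, ε, hc₁, hε, X₀, h⟩ := scp_of U hQ1 hη h2Q hdQ (a0c U hQ1)
    (u0c U.disc U.nsq hQ1 hQ)
  refine ⟨T + 1, c₁, ε / 2, by omega, hc₁, by positivity, fun A₀ P₀ hA₀0 hA₀ => ?_⟩
  set L : ℕ := ⌈s1 (η : Qd t c) ^ 2 / Real.sqrt c₁⌉₊ with hL
  set L2 : ℕ := ⌈s1 (η : Qd t c) ^ 2 / Real.sqrt (c₁ / ((T + 1 : ℕ) : ℝ) ^ 2)⌉₊ with hL2
  set M : ℝ := (2 * (L : ℝ) + 1) * (2 * T + 1) + (2 * (L2 : ℝ) + 1) * (2 * (T + 1) + 1) with hM
  have hM0 : 0 < M := by positivity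
  set δ : ℝ := ε / (2 * M) with hδ
  have hδ0 : 0 < δ := by positivity
  obtain ⟨P, X₁, hP⟩ := rich_all U (lat_all U) hA₀ hA₀0 P₀ hδ0
  refine ⟨P, max 1 (max X₀ X₁), fun X hX => ?_⟩
  have hX1 : 1 ≤ X := (le_max_left _ _).trans hX
  have hX2 : X₀ ≤ X := ((le_max_left _ _).trans (le_max_right _ _)).trans hX
  have hX3 : X₁ ≤ X := ((le_max_right _ _).trans (le_max_right _ _)).trans hX
  obtain ⟨S, hScard, hS⟩ := h X hX2
  have h2 := hP X hX3
  have hS' : ∀ e ∈ S, Pr η Q (T + 1) (c₁ * X) X e := by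
    intro e he
    have h8 := hS e he
    have h9 : |dt e.1 e.2| ≤ ((T + 1 : ℕ) : ℤ) := by
      have := h8.dt1
      push_cast
      linarith
    exact ⟨h8.fd1, h8.pr1, h8.cl1, h8.tp2, h8.cl2, h8.sp1, h8.sp2, h8.n1, h8.n1', h8.n2, h8.n2',
      h8.dt0, h9, h8.ne, h8.an⟩
  set V : Finset (Qd t c) := (ball η X).filter (fun z => ¬ Rich A₀ P₀ P z) with hVdef
  have hrichrep : ∀ z : Qd t c, Rich A₀ P₀ P (rep η z) ↔ Rich A₀ P₀ P z := by
    intro z
    unfold Rich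
    rw [Un.nm_rep]
  have h3 := nonrich_card U hc₁ (by linarith : 0 < X) V
    (S.filter (fun e => ¬ Rich A₀ P₀ P e.1)) (fun e he => hS e (mem_filter.1 he).1) (by
      intro e he
      rw [mem_filter] at he
      rw [hVdef, mem_filter]
      have h4 := hS e he.1
      exact ⟨U.mem_ball.2 ⟨h4.fd1, h4.n1'⟩, he.2⟩)
  have h3' := nonrich_card2 U (T := T + 1) (by omega) hc₁ (by linarith : 0 < X) V
    (S.filter (fun e => ¬ Rich A₀ P₀ P e.2)) (fun e he => hS' e (mem_filter.1 he).1) (by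
      intro e he
      rw [mem_filter] at he
      rw [hVdef, mem_filter]
      have h4 := hS e he.1
      refine ⟨U.mem_ball.2 ⟨U.rep_fd h4.tp2, ?_⟩, ?_⟩
      · rw [Un.nm_rep]; exact h4.n2'
      · rw [hrichrep]; exact he.2)
  have h5 : ((S.filter (fun e => ¬ Rich A₀ P₀ P e.1)).card : ℝ) ≤
      ((2 * (L : ℝ) + 1) * (2 * T + 1)) * (V.card : ℝ) := by
    exact_mod_cast h3
  have h5' : ((S.filter (fun e => ¬ Rich A₀ P₀ P e.2)).card : ℝ) ≤
      ((2 * (L2 : ℝ) + 1) * (2 * (T + 1) + 1)) * (V.card : ℝ) := by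
    rw [← hL2] at h3'
    have : ((S.filter (fun e => ¬ Rich A₀ P₀ P e.2)).card : ℝ) ≤
        ((((2 * L2 + 1) * (2 * (T + 1) + 1)) * V.card : ℕ) : ℝ) := Nat.cast_le.2 h3'
    push_cast at this
    exact this
  have h6 : ((S.filter (fun e => ¬ Rich A₀ P₀ P e.1)).card : ℝ) +
      ((S.filter (fun e => ¬ Rich A₀ P₀ P e.2)).card : ℝ) ≤ ε / 2 * X := by
    have h7 : M * (V.card : ℝ) ≤ M * (δ * X) := mul_le_mul_of_nonneg_left h2 hM0.le
    have h8 : M * (δ * X) = ε / 2 * X := by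
      rw [hδ]; field_simp
    have h9 : M * (V.card : ℝ) = ((2 * (L : ℝ) + 1) * (2 * T + 1)) * (V.card : ℝ) +
      ((2 * (L2 : ℝ) + 1) * (2 * (T + 1) + 1)) * (V.card : ℝ) := by rw [hM]; ring
    linarith
  have h10 : S.card ≤ (S.filter (fun e => Rich A₀ P₀ P e.1 ∧ Rich A₀ P₀ P e.2)).card +
      ((S.filter (fun e => ¬ Rich A₀ P₀ P e.1)).card +
      (S.filter (fun e => ¬ Rich A₀ P₀ P e.2)).card) := by
    have h11 : S ⊆ S.filter (fun e => Rich A₀ P₀ P e.1 ∧ Rich A₀ P₀ P e.2) ∪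
        (S.filter (fun e => ¬ Rich A₀ P₀ P e.1) ∪ S.filter (fun e => ¬ Rich A₀ P₀ P e.2)) := by
      intro e he
      simp only [mem_union, mem_filter]
      tauto
    calc S.card ≤ _ := card_le_card h11
      _ ≤ _ := card_union_le _ _
      _ ≤ _ := Nat.add_le_add_left (card_union_le _ _) _
  have h10' : (S.card : ℝ) ≤
      ((S.filter (fun e => Rich A₀ P₀ P e.1 ∧ Rich A₀ P₀ P e.2)).card : ℝ) +
      (((S.filter (fun e => ¬ Rich A₀ P₀ P e.1)).card : ℝ) +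
      ((S.filter (fun e => ¬ Rich A₀ P₀ P e.2)).card : ℝ)) := by exact_mod_cast h10
  refine ⟨S.filter (fun e => Rich A₀ P₀ P e.1 ∧ Rich A₀ P₀ P e.2), by linarith, fun e he => ?_⟩
  rw [mem_filter] at he
  have h8 := hS' e he.1
  exact ⟨⟨h8.fd1, h8.pr1, h8.cl1, h8.tp2, h8.cl2, h8.sp1, h8.sp2, h8.n1, h8.n1', h8.n2, h8.n2',
    h8.dt0, h8.dt1, h8.ne, h8.an⟩, he.2.1, he.2.2⟩

end Pool.Agent.W84.G
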