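import Pool.Agent.W84.G.Defs

/-!
Project G (helper84): from all integers to a residue class.
-/

set_option autoImplicit false

namespace Pool.Agent.W84.G

open Filter

/-- the final statement for `a n^2 + b n + c`, `n ≡ r mod q` -/
def FinalR (a b c : ℤ) (q r : ℕ) : Prop := ∃ S : ℕ, ∀ e₁ e₂ : ℤ, (e₁ = 1 ∨ e₁ = -1) →
  (e₂ = 1 ∨ e₂ = -1) →
  (∀ ε : ℝ, 0 < ε → ∃ N₀ : ℕ, ∀ N : ℕ, N₀ ≤ N → (N : ℝ) / Real.log N ^ (2 * Real.log 2 + ε) ≤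
    (Set.ncard {n : ℕ | 1 ≤ n ∧ n ≤ N ∧ n ≡ r [MOD q] ∧
      ∃ d d' : ℕ, (d : ℤ) * d' = a * (n : ℤ) ^ 2 + b * n + c ∧
      d ≤ S * n ∧ d' ≤ S * n ∧ (∀ k : ℕ, k ^ 2 ∣ d * d' → k ≤ S) ∧
      (-1 : ℤ) ^ ArithmeticFunction.cardFactors d = e₁ ∧
      (-1 : ℤ) ^ ArithmeticFunction.cardFactors d' = e₂} : ℝ)) ∧
  ∃ κ : ℝ, 0 < κ ∧ ∃ N₀ : ℕ, ∀ N : ℕ, N₀ ≤ N → κ * N ≤
    (Set.ncard {p : ℕ × ℕ | 1 ≤ p.1 ∧ p.1 ≤ N ∧ 1 ≤ p.2 ∧ p.2 ≤ N ∧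
      (∃ n : ℕ, 1 ≤ n ∧ n ≡ r [MOD q] ∧ (p.1 : ℤ) * p.2 = a * (n : ℤ) ^ 2 + b * n + c) ∧
      (∀ k : ℕ, k ^ 2 ∣ p.1 * p.2 → k ≤ S) ∧
      (-1 : ℤ) ^ ArithmeticFunction.cardFactors p.1 = e₁ ∧
      (-1 : ℤ) ^ ArithmeticFunction.cardFactors p.2 = e₂} : ℝ)

lemma shrink (q r : ℕ) (hq : 1 ≤ q) (C ε : ℝ) (hC : 0 ≤ C) (hε : 0 < ε) (N₁ : ℕ) : ∃ N₀ : ℕ,
    ∀ N : ℕ, N₀ ≤ N → N₁ ≤ (N - r) / q ∧ q * ((N - r) / q) + r ≤ N ∧
      (N : ℝ) / Real.log N ^ (C + ε) ≤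
      (((N - r) / q : ℕ) : ℝ) / Real.log (((N - r) / q : ℕ) : ℝ) ^ (C + ε / 2) := by
  have hlog : Tendsto (fun N : ℕ => Real.log N) atTop atTop :=
    Real.tendsto_log_atTop.comp tendsto_natCast_atTop_atTop
  have h1 : ∀ᶠ N : ℕ in atTop, 2 * (q : ℝ) ≤ Real.log N ^ (ε / 2) :=
    ((tendsto_rpow_atTop (half_pos hε)).comp hlog).eventually_ge_atTop _
  have h2 : ∀ᶠ N : ℕ in atTop, 1 ≤ Real.log N := hlog.eventually_ge_atTop _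
  have h3 : ∀ᶠ N : ℕ in atTop, q * (N₁ + 2) + 2 * r + 2 * q ≤ N := eventually_ge_atTop _
  obtain ⟨N₀, hN₀⟩ := eventually_atTop.1 (h1.and (h2.and h3))
  refine ⟨N₀, fun N hN => ?_⟩
  obtain ⟨k1, k2, k3⟩ := hN₀ N hN
  obtain ⟨M, hM⟩ : ∃ M, M = (N - r) / q := ⟨_, rfl⟩
  rw [← hM]
  have e1 : q * M + (N - r) % q = N - r := by rw [hM]; exact Nat.div_add_mod _ _
  have e2 : (N - r) % q < q := Nat.mod_lt _ hq
  have hM1 : N₁ + 2 ≤ M := by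
    rw [hM, Nat.le_div_iff_mul_le hq]
    have : (N₁ + 2) * q = q * (N₁ + 2) := mul_comm _ _
    omega
  have hqM : q * M + r ≤ N := by omega
  refine ⟨by omega, hqM, ?_⟩
  have hMN : N ≤ 2 * q * M := by
    have h4 : N ≤ 2 * (N - r - q) := by omega
    have h5 : N - r - q ≤ q * M := by omega
    calc N ≤ 2 * (N - r - q) := h4
      _ ≤ 2 * (q * M) := by omega
      _ = 2 * q * M := by ring
  have hMle : M ≤ N := by
    have : M ≤ q * M := Nat.le_mul_of_pos_left _ hq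
    omega
  have hM0 : (0 : ℝ) < M := by
    have : 0 < M := by omega
    exact_mod_cast this
  have hM2 : (2 : ℝ) ≤ M := by
    have : 2 ≤ M := by omega
    exact_mod_cast this
  have hlM : 0 < Real.log M := Real.log_pos (by linarith)
  have hlMN : Real.log M ≤ Real.log N := Real.log_le_log hM0 (by exact_mod_cast hMle)
  have hN0 : (0 : ℝ) ≤ N := Nat.cast_nonneg _
  obtain ⟨x, hx⟩ : ∃ x, x = Real.log N := ⟨_, rfl⟩
  rw [← hx] at k1 k2 hlMN ⊢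
  have hx0 : 0 < x := by linarith
  have hp0 : 0 < x ^ (C + ε / 2) := Real.rpow_pos_of_pos hx0 _
  have hp1 : 0 < Real.log M ^ (C + ε / 2) := Real.rpow_pos_of_pos hlM _
  have hpow : Real.log M ^ (C + ε / 2) ≤ x ^ (C + ε / 2) :=
    Real.rpow_le_rpow hlM.le hlMN (by positivity)
  have hsplit : x ^ (C + ε) = x ^ (C + ε / 2) * x ^ (ε / 2) := by
    rw [← Real.rpow_add hx0]
    congr 1
    ring
  have hMN' : (N : ℝ) ≤ 2 * q * M := by exact_mod_cast hMN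
  calc (N : ℝ) / x ^ (C + ε) ≤ M / x ^ (C + ε / 2) := by
        rw [hsplit, div_le_div_iff₀ (by positivity) hp0]
        have h6 : (2 * (q : ℝ)) * M ≤ x ^ (ε / 2) * M := mul_le_mul_of_nonneg_right k1 hM0.le
        have h7 : (N : ℝ) ≤ x ^ (ε / 2) * M := hMN'.trans h6
        calc (N : ℝ) * x ^ (C + ε / 2) ≤ (x ^ (ε / 2) * M) * x ^ (C + ε / 2) :=
              mul_le_mul_of_nonneg_right h7 hp0.le
          _ = (M : ℝ) * (x ^ (C + ε / 2) * x ^ (ε / 2)) := by ring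
    _ ≤ M / Real.log M ^ (C + ε / 2) := div_le_div_of_nonneg_left hM0.le hp1 hpow

/-- from all integers to a residue class -/
theorem finalR_of {a b c : ℤ} {q : ℕ} (r : ℕ) (hq : 1 ≤ q)
    (h : FinalG (a * q ^ 2) (2 * a * q * r + b * q) (a * r ^ 2 + b * r + c)) :
    FinalR a b c q r := by
  obtain ⟨S, h⟩ := h
  have key : ∀ k : ℕ, a * q ^ 2 * (k : ℤ) ^ 2 + (2 * a * q * r + b * q) * k +
      (a * r ^ 2 + b * r + c) = a * ((q * k + r : ℕ) : ℤ) ^ 2 + b * ((q * k + r : ℕ) : ℤ) + c := by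
    intro k
    push_cast
    ring
  have hmod : ∀ k : ℕ, q * k + r ≡ r [MOD q] := by
    intro k
    simp [Nat.ModEq]
  have hkn : ∀ k : ℕ, k ≤ q * k + r := fun k =>
    (Nat.le_mul_of_pos_left k hq).trans (Nat.le_add_right _ _)
  refine ⟨S, fun e₁ e₂ he₁ he₂ => ⟨fun ε hε => ?_, ?_⟩⟩
  · obtain ⟨N₁, h1⟩ := (h e₁ e₂ he₁ he₂).1 (ε / 2) (half_pos hε)
    have hC : 0 ≤ 2 * Real.log 2 := by positivity
    obtain ⟨N₀, h2⟩ := shrink q r hq (2 * Real.log 2) ε hC hε N₁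
    refine ⟨N₀, fun N hN => ?_⟩
    obtain ⟨h3, h4, h5⟩ := h2 N hN
    refine (h5.trans (h1 _ h3)).trans (Nat.cast_le.2 ?_)
    have hfin : {n : ℕ | 1 ≤ n ∧ n ≤ N ∧ n ≡ r [MOD q] ∧
      ∃ d d' : ℕ, (d : ℤ) * d' = a * (n : ℤ) ^ 2 + b * n + c ∧
      d ≤ S * n ∧ d' ≤ S * n ∧ (∀ k : ℕ, k ^ 2 ∣ d * d' → k ≤ S) ∧
      (-1 : ℤ) ^ ArithmeticFunction.cardFactors d = e₁ ∧
      (-1 : ℤ) ^ ArithmeticFunction.cardFactors d' = e₂}.Finite :=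
      (Set.finite_Icc 1 N).subset fun n hn => ⟨hn.1, hn.2.1⟩
    refine Set.ncard_le_ncard_of_injOn (fun k => q * k + r) ?_ ?_ hfin
    · rintro k ⟨h6, h7, d, d', h8, h9, h10, h11⟩
      refine ⟨h6.trans (hkn k), ?_, hmod k, d, d', ?_, ?_, ?_, h11⟩
      · refine le_trans ?_ h4
        exact Nat.add_le_add_right (Nat.mul_le_mul_left q h7) r
      · rw [h8, key]
      · exact h9.trans (Nat.mul_le_mul_left S (hkn k))
      · exact h10.trans (Nat.mul_le_mul_left S (hkn k))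
    · intro k _ k' _ hkk
      have h6 : q * k + r = q * k' + r := hkk
      exact Nat.eq_of_mul_eq_mul_left hq (Nat.add_right_cancel h6)
  · obtain ⟨κ, hκ, N₀, h1⟩ := (h e₁ e₂ he₁ he₂).2
    refine ⟨κ, hκ, N₀, fun N hN => (h1 N hN).trans (Nat.cast_le.2 ?_)⟩
    refine Set.ncard_le_ncard ?_ ?_
    · rintro p ⟨h2, h3, h4, h5, ⟨k, h6, h7⟩, h8⟩
      exact ⟨h2, h3, h4, h5, ⟨q * k + r, h6.trans (hkn k), hmod k, by rw [h7, key]⟩, h8⟩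
    · exact ((Set.finite_Icc 1 N).prod (Set.finite_Icc 1 N)).subset
        fun p hp => ⟨⟨hp.1, hp.2.1⟩, ⟨hp.2.2.1, hp.2.2.2.1⟩⟩

end Pool.Agent.W84.G
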