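import Pool.Agent.W84.G.Defs2
import Pool.Agent.W84.G.Pos
import Pool.Agent.W84.G.Neg
import Pool.Agent.W84.G.RP2
import Pool.Agent.W349.G.Pathg
import Pool.Agent.W193.G.Final
import Pool.Agent.W214.G.Twn
import Pool.Agent.W82.G.Gaps
import Pool.Agent.W948.G.Clr
import Pool.Agent.W249.G.Elen
import Pool.Agent.W465.G.PairN
import Pool.Agent.W80.GC.Cnt
import Pool.Agent.W84.G.Res
import Pool.Agent.W349.G.Sqbt
import Pool.Agent.W672.G.Cont
import Pool.Agent.W308.G.PRR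
import Pool.Agent.W925.G.A0N
import Pool.Agent.W191.G.UN
import Pool.Agent.W925.G.RichN
import Pool.Agent.W29.GT.Typ
import Pool.Agent.W29.GT.Ve
import Pool.Agent.W571.GT.Rep

/-!
Project G (helper84): all parts together.
-/

set_option autoImplicit false

namespace Pool.Agent.W84.G

open Finset Filter
open Pool.Agent.H376R2.MR
open Pool.Agent.W78.GA Pool.Agent.W78.GC
open Pool.Agent.W80.GC (cl)

/-- negative discriminant -/
theorem post_neg {t c : ℤ} (hD : t ^ 2 < 4 * c) {q : ℕ} (hq : 1 ≤ q)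
    (hqD : 4 * (t ^ 2 - 4 * c) ∣ (q : ℤ)) : S_POST t c q :=
  pos hq hqD (Pool.Agent.W349.G.pathg t c) (fibn hD) cln
    (Pool.Agent.W465.G.prn hD (Pool.Agent.W45.GA.lat hD) (Pool.Agent.W82.G.gapsn hD)
      (Pool.Agent.W925.G.RichN.richn hD (Pool.Agent.W45.GA.lat hD))
      (sccg hD (Pool.Agent.W249.G.elen hD) (Pool.Agent.W214.G.twn hD)
        (Pool.Agent.W925.G.A0N.a0n hD) (Pool.Agent.W191.G.un hD) hq hqD))

/-- positive discriminant -/
theorem post_pos {t c : ℤ} (hD : 4 * c < t ^ 2) (hns : ¬ IsSquare (t ^ 2 - 4 * c))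
    (hrp2 : ∀ (η : (Qd t c)ˣ) (Q : ℕ), Pool.Agent.W78.GR.Un t c η → 1 ≤ Q →
      cl Q (η : Qd t c) → 4 * (t ^ 2 - 4 * c) ∣ (Q : ℤ) → S_RP2 η Q)
    {q : ℕ} (hq : 1 ≤ q) (hqD : 4 * (t ^ 2 - 4 * c) ∣ (q : ℤ)) :
    S_POST t c q := by
  obtain ⟨η₀, U₀⟩ := Pool.Agent.W376.GR.unit hD hns
  obtain ⟨η, U, hη⟩ := Pool.Agent.W80.GC.unit_cl U₀ hq
  exact pos hq hqD (Pool.Agent.W349.G.pathg t c) (Pool.Agent.W948.G.fibr U)
    (Pool.Agent.W948.G.clr U) (Pool.Agent.W308.G.prr U hq hη hqD (hrp2 η q U hq hη hqD))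

lemma cont' {t c : ℤ} (hns : ¬ IsSquare (t ^ 2 - 4 * c)) : S_CONT t c :=
  Pool.Agent.W672.G.cont hns (Pool.Agent.W29.GT.root_of (Pool.Agent.W571.GT.rep hns))
    (Pool.Agent.W29.GT.vet_of (Pool.Agent.W29.GT.root_of (Pool.Agent.W571.GT.rep hns)))
    (Pool.Agent.W29.GT.typt hns)

/-- the final theorem, all quadratics of nonsquare discriminant -/
theorem final_of (hrp2 : ∀ (t c : ℤ) (η : (Qd t c)ˣ) (Q : ℕ), Pool.Agent.W78.GR.Un t c η → 1 ≤ Q →
      cl Q (η : Qd t c) → 4 * (t ^ 2 - 4 * c) ∣ (Q : ℤ) → S_RP2 η Q)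
    {a b c : ℤ} (ha : 0 < a) (hns : ¬ IsSquare (b ^ 2 - 4 * a * c)) : FinalG a b c := by
  have hns' : ¬ IsSquare (b ^ 2 - 4 * (a * c)) := by
    have e : b ^ 2 - 4 * (a * c) = b ^ 2 - 4 * a * c := by ring
    rwa [e]
  set D : ℤ := b ^ 2 - 4 * (a * c) with hD
  have hD0 : D ≠ 0 := by
    intro h0
    exact hns' ⟨0, by rw [h0]; ring⟩
  set q : ℕ := 4 * D.natAbs * a.natAbs with hq
  have hq1 : 1 ≤ q := by
    have h1 : 0 < D.natAbs := Int.natAbs_pos.2 hD0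
    have h2 : 0 < a.natAbs := Int.natAbs_pos.2 ha.ne'
    rw [hq]
    exact Nat.mul_pos (Nat.mul_pos (by norm_num) h1) h2
  have haq : a ∣ (q : ℤ) := by
    rw [hq]
    push_cast
    exact Dvd.dvd.mul_left ((dvd_abs a a).2 dvd_rfl) _
  have hDq : 4 * (b ^ 2 - 4 * (a * c)) ∣ (q : ℤ) := by
    rw [← hD, hq]
    push_cast
    exact Dvd.dvd.mul_right (mul_dvd_mul_left 4 ((dvd_abs D D).2 dvd_rfl)) _
  refine Pool.Agent.W193.G.finalg a b c ha q hq1 haq ?_ (Pool.Agent.W349.G.sqbt hns')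
    (cont' hns')
  rcases lt_trichotomy (b ^ 2) (4 * (a * c)) with h | h | h
  · exact post_neg h hq1 hDq
  · exact absurd (by rw [hD, h]; ring) hD0
  · exact post_pos h hns' (hrp2 b (a * c)) hq1 hDq

/-- the final theorem -/
theorem final {a b c : ℤ} (ha : 0 < a) (hns : ¬ IsSquare (b ^ 2 - 4 * a * c)) : FinalG a b c :=
  final_of (fun _ _ _ _ U hQ hη hD => rp2 U hQ hη hD) ha hns

/-- negative discriminant, residue classes -/
theorem final_neg {a b c : ℤ} (ha : 0 < a) (hD : b ^ 2 < 4 * a * c) : FinalG a b c := by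
  have hD' : b ^ 2 < 4 * (a * c) := by linarith
  have hns : ¬ IsSquare (b ^ 2 - 4 * (a * c)) := by
    rintro ⟨x, hx⟩
    nlinarith [mul_self_nonneg x]
  have h := final_of (a := a) (b := b) (c := c)
  clear h
  set D : ℤ := b ^ 2 - 4 * (a * c) with hD
  have hD0 : D ≠ 0 := by
    intro h0
    exact hns ⟨0, by rw [h0]; ring⟩
  set q : ℕ := 4 * D.natAbs * a.natAbs with hq
  have hq1 : 1 ≤ q := by
    have h1 : 0 < D.natAbs := Int.natAbs_pos.2 hD0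
    have h2 : 0 < a.natAbs := Int.natAbs_pos.2 ha.ne'
    rw [hq]
    exact Nat.mul_pos (Nat.mul_pos (by norm_num) h1) h2
  have haq : a ∣ (q : ℤ) := by
    rw [hq]
    push_cast
    exact Dvd.dvd.mul_left ((dvd_abs a a).2 dvd_rfl) _
  have hDq : 4 * (b ^ 2 - 4 * (a * c)) ∣ (q : ℤ) := by
    rw [← hD, hq]
    push_cast
    exact Dvd.dvd.mul_right (mul_dvd_mul_left 4 ((dvd_abs D D).2 dvd_rfl)) _
  exact Pool.Agent.W193.G.finalg a b c ha q hq1 haq (post_neg hD' hq1 hDq)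
    (Pool.Agent.W349.G.sqbt hns) (cont' hns)

end Pool.Agent.W84.G
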